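import Pool.Agent.H.MP_656320_nt.LS.Df

/-!
# LS/AvB: exchange of the summations

`swap`: both sides are the sum over the pairs `(p, k)` with `p k ≤ u`, `1 ≤ k`, `p` prime (`Finset.sum_comm'`,
`Nat.le_div_iff_mul_le`). `thsum`: `|f k| ≤ 1`, `|th f (u / k)| ≤ δ (u / k) + C` and the harmonic sum
(`harmonic_le_one_add_log`).
-/

namespace Pool.Agent.H.MP_656320_nt.LS

open Finset Filter Topology Pool.Agent.H.MP_656320_nt

theorem swap (f : ℕ → ℝ) (u : ℕ) :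
    ∑ p ∈ (Icc 1 u).filter Nat.Prime, f p * Real.log p * ∑ k ∈ Icc 1 (u / p), f k =
      ∑ k ∈ Icc 1 u, f k * th f (u / k) := by
  unfold th
  simp only [mul_sum]
  rw [sum_comm' (t' := Icc 1 u) (s' := fun k => (Icc 1 (u / k)).filter Nat.Prime)]
  · refine sum_congr rfl fun k _ => sum_congr rfl fun p _ => ?_
    ring
  · intro p k
    simp only [mem_filter, mem_Icc]
    constructor
    · rintro ⟨⟨⟨h1, h2⟩, h3⟩, h4, h5⟩
      have h6 : k * p ≤ u := (Nat.le_div_iff_mul_le (by omega)).1 h5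
      refine ⟨⟨⟨h1, (Nat.le_div_iff_mul_le (by omega)).2 (by rw [mul_comm]; exact h6)⟩, h3⟩, h4, ?_⟩
      exact (Nat.le_mul_of_pos_right k (by omega)).trans h6
    · rintro ⟨⟨⟨h1, h2⟩, h3⟩, h4, h5⟩
      have h6 : p * k ≤ u := (Nat.le_div_iff_mul_le (by omega)).1 h2
      refine ⟨⟨⟨h1, (Nat.le_mul_of_pos_right p (by omega)).trans h6⟩, h3⟩, h4, ?_⟩
      exact (Nat.le_div_iff_mul_le (by omega)).2 (by rw [mul_comm]; exact h6)

theorem thsum {f : ℕ → ℝ} (hf : Mu f) {δ C : ℝ} (hδ : 0 ≤ δ) (hC : ∀ y : ℕ, |th f y| ≤ δ * y + C)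
    (u : ℕ) (hu : 1 ≤ u) :
    |∑ k ∈ Icc 1 u, f k * th f (u / k)| ≤ δ * u * (1 + Real.log u) + C * u := by
  have h1 : ∀ k ∈ Icc 1 u, |f k * th f (u / k)| ≤ δ * u * (k : ℝ)⁻¹ + C := by
    intro k hk
    rw [abs_mul]
    have h2 : |f k| * |th f (u / k)| ≤ 1 * |th f (u / k)| :=
      mul_le_mul_of_nonneg_right (hf.le k) (abs_nonneg _)
    have h3 := hC (u / k)
    have h4 : ((u / k : ℕ) : ℝ) ≤ u * (k : ℝ)⁻¹ := by
      rw [← div_eq_mul_inv]
      exact Nat.cast_div_le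
    have h5 := mul_le_mul_of_nonneg_left h4 hδ
    rw [one_mul] at h2
    linarith
  have h2 : ∑ k ∈ Icc 1 u, (k : ℝ)⁻¹ ≤ 1 + Real.log u := by
    have h3 := harmonic_le_one_add_log u
    rw [harmonic_eq_sum_Icc] at h3
    push_cast at h3
    exact h3
  calc |∑ k ∈ Icc 1 u, f k * th f (u / k)| ≤ ∑ k ∈ Icc 1 u, |f k * th f (u / k)| :=
        abs_sum_le_sum_abs _ _
    _ ≤ ∑ k ∈ Icc 1 u, (δ * u * (k : ℝ)⁻¹ + C) := sum_le_sum h1
    _ = δ * u * ∑ k ∈ Icc 1 u, (k : ℝ)⁻¹ + C * u := by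
        rw [sum_add_distrib, ← mul_sum, sum_const, Nat.card_Icc, nsmul_eq_mul, add_tsub_cancel_right,
          mul_comm C]
    _ ≤ δ * u * (1 + Real.log u) + C * u := by
        have h4 : 0 ≤ δ * u := mul_nonneg hδ (Nat.cast_nonneg _)
        have h5 := mul_le_mul_of_nonneg_left h2 h4
        linarith

end Pool.Agent.H.MP_656320_nt.LS
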