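import Pool.Agent.H.MP_656320_nt.LS.Df

/-!
# LS/AvC: elementary sums

`sqsum`: induction, `1 / √(n + 1) ≤ 2 (√(n + 1) - √n)`. `logdef`: `log u - log m = log (u / m) ≤ 2 √(u / m)`
(`Real.log_le_rpow_div` or `Real.log_le_sub_one_of_pos` at the square root) and `sqsum`.
-/

namespace Pool.Agent.H.MP_656320_nt.LS

open Finset Filter Topology Pool.Agent.H.MP_656320_nt

theorem sqsum (u : ℕ) : ∑ m ∈ Icc 1 u, 1 / Real.sqrt m ≤ 2 * Real.sqrt u := by
  induction u with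
  | zero => simp
  | succ u ih =>
    rw [Finset.sum_Icc_succ_top (by omega : 1 ≤ u + 1)]
    have ha : 0 < Real.sqrt ((u + 1 : ℕ) : ℝ) := Real.sqrt_pos.2 (by positivity)
    have hb : 0 ≤ Real.sqrt (u : ℝ) := Real.sqrt_nonneg _
    have ha2 : Real.sqrt ((u + 1 : ℕ) : ℝ) ^ 2 = u + 1 := by
      rw [Real.sq_sqrt (by positivity)]
      push_cast
      ring
    have hb2 : Real.sqrt (u : ℝ) ^ 2 = u := Real.sq_sqrt (by positivity)
    have h1 : 1 / Real.sqrt ((u + 1 : ℕ) : ℝ) ≤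
        2 * (Real.sqrt ((u + 1 : ℕ) : ℝ) - Real.sqrt (u : ℝ)) := by
      rw [div_le_iff₀ ha]
      nlinarith [sq_nonneg (Real.sqrt ((u + 1 : ℕ) : ℝ) - Real.sqrt (u : ℝ))]
    linarith

theorem logdef (u : ℕ) : ∑ m ∈ Icc 1 u, (Real.log u - Real.log m) ≤ 4 * u := by
  have h1 : ∀ m ∈ Icc 1 u, Real.log u - Real.log m ≤ 2 * Real.sqrt u * (1 / Real.sqrt m) := by
    intro m hm
    rw [mem_Icc] at hm
    have hm0 : (0 : ℝ) < m := by exact_mod_cast hm.1
    have hu0 : (0 : ℝ) < u := by exact_mod_cast (by omega : 0 < u)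
    have hs : 0 < Real.sqrt ((u : ℝ) / m) := Real.sqrt_pos.2 (by positivity)
    have h2 : Real.log u - Real.log m = 2 * Real.log (Real.sqrt ((u : ℝ) / m)) := by
      rw [← Real.log_div hu0.ne' hm0.ne', Real.log_sqrt (by positivity)]
      ring
    have h3 := Real.log_le_sub_one_of_pos hs
    have h4 : Real.sqrt ((u : ℝ) / m) = Real.sqrt u * (1 / Real.sqrt m) := by
      rw [Real.sqrt_div (by positivity)]
      ring
    rw [h2]
    rw [h4] at h3 ⊢
    nlinarith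
  calc ∑ m ∈ Icc 1 u, (Real.log u - Real.log m)
      ≤ ∑ m ∈ Icc 1 u, 2 * Real.sqrt u * (1 / Real.sqrt m) := Finset.sum_le_sum h1
    _ = 2 * Real.sqrt u * ∑ m ∈ Icc 1 u, 1 / Real.sqrt m := by rw [Finset.mul_sum]
    _ ≤ 2 * Real.sqrt u * (2 * Real.sqrt u) :=
        mul_le_mul_of_nonneg_left (sqsum u) (by positivity)
    _ = 4 * u := by
        have h5 : Real.sqrt (u : ℝ) * Real.sqrt u = u := Real.mul_self_sqrt (by positivity)
        linear_combination 4 * h5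

end Pool.Agent.H.MP_656320_nt.LS
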