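import Pool.Agent.H.MP_656320_nt.LS.AvA
import Pool.Agent.H.MP_656320_nt.LS.AvB
import Pool.Agent.H.MP_656320_nt.LS.AvC

/-!
# LS/Av: mean values

`|∑ f m| log u ≤ |∑ f m log m| + ∑ (log u - log m) ≤ δ u (1 + log u) + (C + C0 + 4) u`; divide by `log u` for large `u`;
for small `u` the sum is at most `u`.
-/

namespace Pool.Agent.H.MP_656320_nt.LS

open Finset Filter Topology Pool.Agent.H.MP_656320_nt

theorem Av_triv {f : ℕ → ℝ} (hf : Mu f) (u : ℕ) : |∑ m ∈ Icc 1 u, f m| ≤ u := by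
  refine (Finset.abs_sum_le_sum_abs _ _).trans ?_
  refine (Finset.sum_le_sum fun k _ => hf.le k).trans ?_
  rw [Finset.sum_const, Nat.card_Icc, Nat.add_sub_cancel, nsmul_eq_mul, mul_one]

theorem Av_log {f : ℕ → ℝ} (hf : Mu f) {δ C C0 : ℝ} (hδ : 0 ≤ δ)
    (hC : ∀ y : ℕ, |th f y| ≤ δ * y + C) {u : ℕ} (hu : 1 ≤ u)
    (h0 : |∑ m ∈ Icc 1 u, f m * Real.log m -
      ∑ p ∈ (Icc 1 u).filter Nat.Prime, f p * Real.log p * ∑ k ∈ Icc 1 (u / p), f k| ≤ C0 * u) :
    |∑ m ∈ Icc 1 u, f m| * Real.log u ≤ δ * u * (1 + Real.log u) + (C + C0 + 4) * u := by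
  have hl : 0 ≤ Real.log u := Real.log_natCast_nonneg u
  have h1 : (∑ m ∈ Icc 1 u, f m) * Real.log u =
      ∑ m ∈ Icc 1 u, f m * Real.log m + ∑ m ∈ Icc 1 u, f m * (Real.log u - Real.log m) := by
    rw [Finset.sum_mul, ← Finset.sum_add_distrib]
    refine Finset.sum_congr rfl fun m _ => ?_
    ring
  have h2 : |∑ m ∈ Icc 1 u, f m * (Real.log u - Real.log m)| ≤ 4 * u := by
    refine (Finset.abs_sum_le_sum_abs _ _).trans ((Finset.sum_le_sum fun m hm => ?_).trans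
      (logdef u))
    rw [Finset.mem_Icc] at hm
    have h3 : 0 ≤ Real.log u - Real.log m := by
      rw [sub_nonneg]
      exact Real.log_le_log (by exact_mod_cast hm.1) (by exact_mod_cast hm.2)
    rw [abs_mul, abs_of_nonneg h3]
    exact mul_le_of_le_one_left h3 (hf.le m)
  have h3 := thsum hf hδ hC u hu
  rw [swap] at h0
  have h4 : |∑ m ∈ Icc 1 u, f m * Real.log m| ≤ C0 * u + (δ * u * (1 + Real.log u) + C * u) := by
    have h5 : ∑ m ∈ Icc 1 u, f m * Real.log m =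
        (∑ m ∈ Icc 1 u, f m * Real.log m - ∑ k ∈ Icc 1 u, f k * th f (u / k)) +
          ∑ k ∈ Icc 1 u, f k * th f (u / k) := by ring
    rw [h5]
    exact (abs_add_le _ _).trans (add_le_add h0 h3)
  have h5 : |∑ m ∈ Icc 1 u, f m| * Real.log u = |(∑ m ∈ Icc 1 u, f m) * Real.log u| := by
    rw [abs_mul, abs_of_nonneg hl]
  rw [h5, h1]
  refine (abs_add_le _ _).trans ((add_le_add h4 h2).trans (le_of_eq ?_))
  ring

theorem mean_small {F : Set (ℕ → ℝ)} (hF : ∀ f ∈ F, Mu f) (h : ThF F) :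
    ∀ δ > 0, ∃ C : ℝ, ∀ f ∈ F, ∀ u : ℕ, |∑ m ∈ Icc 1 u, f m| ≤ δ * u + C := by
  intro δ hδ
  obtain ⟨C, hC⟩ := h (δ / 2) (by linarith)
  obtain ⟨C0, hC00, hC0⟩ := logsum
  -- for `u ≥ U`: `δ / 2 + |C| + C0 + 4 ≤ δ / 2 * log u`
  have htend : Tendsto (fun u : ℕ => δ / 2 * Real.log u) atTop atTop :=
    (Real.tendsto_log_atTop.comp tendsto_natCast_atTop_atTop).const_mul_atTop (by linarith)
  obtain ⟨U, hU⟩ := Filter.eventually_atTop.1 (htend.eventually_ge_atTop (δ / 2 + |C| + C0 + 4))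
  refine ⟨U + 1, fun f hf u => ?_⟩
  by_cases hu : u ≤ U + 1
  · have h1 := Av_triv (hF f hf) u
    have h2 : (u : ℝ) ≤ U + 1 := by exact_mod_cast hu
    have h3 : 0 ≤ δ * (u : ℝ) := by positivity
    linarith
  · push Not at hu
    have hu1 : 1 ≤ u := by omega
    have h1 := Av_log (hF f hf) (by linarith) (hC f hf) hu1 (hC0 f (hF f hf) u)
    have h2 := hU u (by omega)
    have hu0 : (0 : ℝ) < u := by exact_mod_cast hu1
    have hl : 0 < Real.log u := Real.log_pos (by exact_mod_cast (by omega : 1 < u))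
    have h3 : C ≤ |C| := le_abs_self C
    have h4 : |∑ m ∈ Icc 1 u, f m| * Real.log u ≤ (δ * u) * Real.log u := by
      refine h1.trans ?_
      have h5 : (δ / 2 + C + C0 + 4) * u ≤ (δ / 2 * Real.log u) * u :=
        mul_le_mul_of_nonneg_right (by linarith) hu0.le
      nlinarith
    have h5 := le_of_mul_le_mul_right h4 hl
    have h6 : (0 : ℝ) ≤ U + 1 := by positivity
    linarith

end Pool.Agent.H.MP_656320_nt.LS
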