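import Pool.Agent.H.MP_656320_nt.LS.Df

/-!
# LS/AvA: the weight `log m`

`∑ f m log m = ∑_m f m ∑_{d ∣ m} Λ d` (`ArithmeticFunction.vonMangoldt_sum`) `= ∑_{d ≤ u} Λ d ∑_{k ≤ u / d} f (d k)`.
The `d` which are not prime contribute at most `u ∑ Λ d / d`, a convergent sum
(`ArithmeticFunction.vonMangoldt.summable_residueClass_non_primes_div` with `q = 1`). For `d = p` prime,
`f (p k) = f p f k` if `p ∤ k`, and the number of `k ≤ u / p` with `p ∣ k` is at most `u / p ^ 2`; `∑ log n / n ^ 2`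
converges.
-/

namespace Pool.Agent.H.MP_656320_nt.LS

open Finset Filter Topology Pool.Agent.H.MP_656320_nt

theorem AvA_mult (g : ℕ → ℝ) {d : ℕ} (hd : 1 ≤ d) (u : ℕ) :
    ∑ m ∈ (Icc 1 u).filter (fun m => d ∣ m), g m = ∑ k ∈ Icc 1 (u / d), g (d * k) := by
  symm
  refine Finset.sum_bij' (fun k _ => d * k) (fun m _ => m / d) ?_ ?_ ?_ ?_ ?_
  · intro k hk
    rw [Finset.mem_Icc] at hk
    rw [Finset.mem_filter, Finset.mem_Icc]
    refine ⟨⟨Nat.mul_pos hd hk.1, ?_⟩, dvd_mul_right _ _⟩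
    have := (Nat.le_div_iff_mul_le (by omega)).1 hk.2
    rwa [mul_comm] at this
  · intro m hm
    rw [Finset.mem_filter, Finset.mem_Icc] at hm
    rw [Finset.mem_Icc]
    exact ⟨Nat.div_pos (Nat.le_of_dvd hm.1.1 hm.2) (by omega), Nat.div_le_div_right hm.1.2⟩
  · intro k _
    exact Nat.mul_div_cancel_left _ (by omega)
  · intro m hm
    rw [Finset.mem_filter] at hm
    exact Nat.mul_div_cancel' hm.2
  · intro k _
    rfl

theorem AvA_swap (f : ℕ → ℝ) (u : ℕ) : ∑ m ∈ Icc 1 u, f m * Real.log m =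
    ∑ d ∈ Icc 1 u, ArithmeticFunction.vonMangoldt d * ∑ k ∈ Icc 1 (u / d), f (d * k) := by
  have h1 : ∀ m ∈ Icc 1 u, f m * Real.log m =
      ∑ d ∈ Icc 1 u, if d ∣ m then ArithmeticFunction.vonMangoldt d * f m else 0 := by
    intro m hm
    rw [Finset.mem_Icc] at hm
    rw [← ArithmeticFunction.vonMangoldt_sum, Finset.mul_sum, ← Finset.sum_filter]
    refine Finset.sum_congr ?_ fun d _ => mul_comm _ _
    ext d
    rw [Nat.mem_divisors, Finset.mem_filter, Finset.mem_Icc]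
    constructor
    · rintro ⟨h2, h3⟩
      exact ⟨⟨Nat.pos_of_dvd_of_pos h2 hm.1, (Nat.le_of_dvd hm.1 h2).trans hm.2⟩, h2⟩
    · rintro ⟨-, h2⟩
      exact ⟨h2, by omega⟩
  rw [Finset.sum_congr rfl h1, Finset.sum_comm]
  refine Finset.sum_congr rfl fun d hd => ?_
  rw [Finset.mem_Icc] at hd
  rw [← Finset.sum_filter, Finset.mul_sum, ← Finset.mul_sum, ← Finset.mul_sum, AvA_mult f hd.1]

theorem AvA_non : ∃ C : ℝ, 0 ≤ C ∧ ∀ u : ℕ,
    ∑ d ∈ (Icc 1 u).filter (fun d => ¬ d.Prime), ArithmeticFunction.vonMangoldt d / d ≤ C := by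
  have h1 := ArithmeticFunction.vonMangoldt.summable_residueClass_non_primes_div (q := 1)
    (a := (0 : ZMod 1))
  have h2 : (fun n : ℕ => (if n.Prime then 0 else
      ArithmeticFunction.vonMangoldt.residueClass (0 : ZMod 1) n) / (n : ℝ)) =
      fun n : ℕ => (if n.Prime then 0 else ArithmeticFunction.vonMangoldt n) / (n : ℝ) := by
    funext n
    have h3 : ArithmeticFunction.vonMangoldt.residueClass (0 : ZMod 1) n =
        ArithmeticFunction.vonMangoldt n := by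
      unfold ArithmeticFunction.vonMangoldt.residueClass
      rw [Set.indicator_of_mem]
      exact Subsingleton.elim _ _
    rw [h3]
  rw [h2] at h1
  have h0 : ∀ n : ℕ, 0 ≤ (if n.Prime then 0 else ArithmeticFunction.vonMangoldt n) / (n : ℝ) := by
    intro n
    refine div_nonneg ?_ (Nat.cast_nonneg n)
    split_ifs
    · exact le_rfl
    · exact ArithmeticFunction.vonMangoldt_nonneg
  refine ⟨∑' n : ℕ, (if n.Prime then 0 else ArithmeticFunction.vonMangoldt n) / (n : ℝ),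
    tsum_nonneg h0, fun u => ?_⟩
  refine le_trans (le_of_eq ?_) (h1.sum_le_tsum ((Icc 1 u).filter (fun d => ¬ d.Prime))
    (fun n _ => h0 n))
  refine Finset.sum_congr rfl fun d hd => ?_
  rw [if_neg (Finset.mem_filter.1 hd).2]

theorem AvA_log : ∃ C : ℝ, 0 ≤ C ∧ ∀ u : ℕ,
    ∑ p ∈ (Icc 1 u).filter Nat.Prime, Real.log p / (p : ℝ) ^ 2 ≤ C := by
  have h1 : Summable (fun n : ℕ => 2 * (1 / (n : ℝ) ^ (3 / 2 : ℝ))) :=
    (Real.summable_one_div_nat_rpow.2 (by norm_num)).mul_left 2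
  have h0 : ∀ n : ℕ, 0 ≤ 2 * (1 / (n : ℝ) ^ (3 / 2 : ℝ)) := fun n => by positivity
  refine ⟨∑' n : ℕ, 2 * (1 / (n : ℝ) ^ (3 / 2 : ℝ)), tsum_nonneg h0, fun u => ?_⟩
  refine le_trans (Finset.sum_le_sum fun p hp => ?_) (h1.sum_le_tsum ((Icc 1 u).filter Nat.Prime)
    (fun n _ => h0 n))
  rw [Finset.mem_filter, Finset.mem_Icc] at hp
  have hp0 : (0 : ℝ) < p := by exact_mod_cast hp.1.1
  have h2 := Real.log_le_rpow_div hp0.le (ε := 1 / 2) (by norm_num)
  have h3 : (p : ℝ) ^ (3 / 2 : ℝ) * (p : ℝ) ^ (1 / 2 : ℝ) = (p : ℝ) ^ 2 := by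
    rw [← Real.rpow_add hp0]
    norm_num
  have h4 : (0 : ℝ) < (p : ℝ) ^ (3 / 2 : ℝ) := Real.rpow_pos_of_pos hp0 _
  rw [div_le_iff₀ (by positivity), ← h3]
  have h5 : 2 * (1 / (p : ℝ) ^ (3 / 2 : ℝ)) * ((p : ℝ) ^ (3 / 2 : ℝ) * (p : ℝ) ^ (1 / 2 : ℝ)) =
      (p : ℝ) ^ (1 / 2 : ℝ) / (1 / 2) := by
    field_simp
  rw [h5]
  exact h2

theorem AvA_prime {f : ℕ → ℝ} (hf : Mu f) {p : ℕ} (hp : p.Prime) (u : ℕ) :
    |∑ k ∈ Icc 1 (u / p), f (p * k) - f p * ∑ k ∈ Icc 1 (u / p), f k| ≤ 2 * (u / (p : ℝ) ^ 2) := by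
  have hp0 : (0 : ℝ) < p := by exact_mod_cast hp.pos
  rw [Finset.mul_sum, ← Finset.sum_sub_distrib]
  refine (Finset.abs_sum_le_sum_abs _ _).trans ?_
  have h1 : ∀ k ∈ Icc 1 (u / p), |f (p * k) - f p * f k| ≤ if p ∣ k then 2 else 0 := by
    intro k _
    by_cases hk : p ∣ k
    · rw [if_pos hk]
      have h2 := hf.le (p * k)
      have h3 : |f p * f k| ≤ 1 := by
        rw [abs_mul]
        exact mul_le_one₀ (hf.le p) (abs_nonneg _) (hf.le k)
      refine (abs_sub _ _).trans ?_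
      linarith
    · rw [if_neg hk, hf.mul p k ((Nat.Prime.coprime_iff_not_dvd hp).2 hk), sub_self, abs_zero]
  refine (Finset.sum_le_sum h1).trans ?_
  rw [← Finset.sum_filter, AvA_mult (fun _ => (2 : ℝ)) hp.pos, Finset.sum_const, Nat.card_Icc,
    Nat.add_sub_cancel, nsmul_eq_mul, mul_comm]
  refine mul_le_mul_of_nonneg_left ?_ (by norm_num)
  have h2 : ((u / p / p : ℕ) : ℝ) ≤ ((u / p : ℕ) : ℝ) / p := Nat.cast_div_le
  have h3 : ((u / p : ℕ) : ℝ) ≤ (u : ℝ) / p := Nat.cast_div_le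
  refine h2.trans ((div_le_div_of_nonneg_right h3 hp0.le).trans (le_of_eq ?_))
  rw [div_div, sq]

theorem AvA_any {f : ℕ → ℝ} (hf : Mu f) {d : ℕ} (u : ℕ) :
    |∑ k ∈ Icc 1 (u / d), f (d * k)| ≤ u / (d : ℝ) := by
  refine (Finset.abs_sum_le_sum_abs _ _).trans ?_
  refine (Finset.sum_le_sum fun k _ => hf.le (d * k)).trans ?_
  rw [Finset.sum_const, Nat.card_Icc, Nat.add_sub_cancel, nsmul_eq_mul, mul_one]
  exact Nat.cast_div_le

theorem logsum : ∃ C : ℝ, 0 ≤ C ∧ ∀ f : ℕ → ℝ, Mu f → ∀ u : ℕ,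
    |∑ m ∈ Icc 1 u, f m * Real.log m -
      ∑ p ∈ (Icc 1 u).filter Nat.Prime, f p * Real.log p * ∑ k ∈ Icc 1 (u / p), f k| ≤ C * u := by
  obtain ⟨C1, h1, hC1⟩ := AvA_non
  obtain ⟨C2, h2, hC2⟩ := AvA_log
  refine ⟨C1 + 2 * C2, by positivity, fun f hf u => ?_⟩
  rw [AvA_swap, ← Finset.sum_filter_add_sum_filter_not (Icc 1 u) Nat.Prime, add_sub_right_comm,
    ← Finset.sum_sub_distrib]
  refine (abs_add_le _ _).trans ?_
  have e1 : |∑ p ∈ (Icc 1 u).filter Nat.Prime, (ArithmeticFunction.vonMangoldt p *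
      ∑ k ∈ Icc 1 (u / p), f (p * k) - f p * Real.log p * ∑ k ∈ Icc 1 (u / p), f k)| ≤
      2 * C2 * u := by
    refine (Finset.abs_sum_le_sum_abs _ _).trans ?_
    have h3 : ∀ p ∈ (Icc 1 u).filter Nat.Prime, |ArithmeticFunction.vonMangoldt p *
        ∑ k ∈ Icc 1 (u / p), f (p * k) - f p * Real.log p * ∑ k ∈ Icc 1 (u / p), f k| ≤
        2 * u * (Real.log p / (p : ℝ) ^ 2) := by
      intro p hp
      have hp' := (Finset.mem_filter.1 hp).2
      have hl : 0 ≤ Real.log p := Real.log_natCast_nonneg p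
      have h4 : ArithmeticFunction.vonMangoldt p * ∑ k ∈ Icc 1 (u / p), f (p * k) -
          f p * Real.log p * ∑ k ∈ Icc 1 (u / p), f k = Real.log p *
          (∑ k ∈ Icc 1 (u / p), f (p * k) - f p * ∑ k ∈ Icc 1 (u / p), f k) := by
        rw [ArithmeticFunction.vonMangoldt_apply_prime hp']
        ring
      rw [h4, abs_mul, abs_of_nonneg hl]
      refine (mul_le_mul_of_nonneg_left (AvA_prime hf hp' u) hl).trans (le_of_eq ?_)
      ring
    refine (Finset.sum_le_sum h3).trans ?_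
    rw [← Finset.mul_sum]
    have h5 := mul_le_mul_of_nonneg_left (hC2 u) (show (0 : ℝ) ≤ 2 * u by positivity)
    linarith
  have e2 : |∑ d ∈ (Icc 1 u).filter (fun d => ¬ d.Prime), ArithmeticFunction.vonMangoldt d *
      ∑ k ∈ Icc 1 (u / d), f (d * k)| ≤ C1 * u := by
    refine (Finset.abs_sum_le_sum_abs _ _).trans ?_
    have h3 : ∀ d ∈ (Icc 1 u).filter (fun d => ¬ d.Prime), |ArithmeticFunction.vonMangoldt d *
        ∑ k ∈ Icc 1 (u / d), f (d * k)| ≤ u * (ArithmeticFunction.vonMangoldt d / d) := by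
      intro d _
      rw [abs_mul, abs_of_nonneg ArithmeticFunction.vonMangoldt_nonneg]
      refine (mul_le_mul_of_nonneg_left (AvA_any hf u)
        ArithmeticFunction.vonMangoldt_nonneg).trans (le_of_eq ?_)
      ring
    refine (Finset.sum_le_sum h3).trans ?_
    rw [← Finset.mul_sum]
    have h5 := mul_le_mul_of_nonneg_left (hC1 u) (show (0 : ℝ) ≤ (u : ℝ) by positivity)
    linarith
  calc _ ≤ 2 * C2 * u + C1 * u := add_le_add e1 e2
    _ = (C1 + 2 * C2) * u := by ring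

end Pool.Agent.H.MP_656320_nt.LS
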