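import Pool.Agent.H.MP_656320_nt.Cmq

/-!
# LS/Df: definitions

Integers with a large square divisor.
-/

namespace Pool.Agent.H.MP_656320_nt.LS

open Finset Filter Topology Pool.Agent.H.MP_656320_nt

/-- The numbers which are divisible by `m ^ 2` for some `m > z` prime to `N`. -/
def Dz (N z : ℕ) : Set ℕ := {n | ∃ m, z < m ∧ m.Coprime N ∧ m ^ 2 ∣ n}

/-- The primes with the property `A` have relative density `d` among the primes. -/
def PDens (A : Set ℕ) (d : ℝ) : Prop :=
  Tendsto (fun u : ℕ => ((cnt {p | p.Prime ∧ p ∈ A} u : ℕ) : ℝ) / (cnt {p | p.Prime} u : ℕ)) atTop (𝓝 d)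

/-- The sum over the primes up to `y` of `f p log p`. -/
noncomputable def th (f : ℕ → ℝ) (y : ℕ) : ℝ :=
  ∑ p ∈ (Icc 1 y).filter Nat.Prime, f p * Real.log p

/-- The sums `th f y` are `o(y)` uniformly for `f` in `F`. -/
def ThF (F : Set (ℕ → ℝ)) : Prop := ∀ δ > 0, ∃ C : ℝ, ∀ f ∈ F, ∀ y : ℕ, |th f y| ≤ δ * y + C

/-- Multiplicative functions with values of absolute value at most one. -/
structure Mu (f : ℕ → ℝ) : Prop where
  le : ∀ m, |f m| ≤ 1
  mul : ∀ b c : ℕ, b.Coprime c → f (b * c) = f b * f c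

/-- the sign as a real number -/
noncomputable def sg (x : ℝ) : ℝ := ((SignType.sign x : SignType) : ℝ)

/-- The functions `f_t` -/
noncomputable def ft (N : ℕ) (a : ℕ → ℝ) (t : ℕ) (m : ℕ) : ℝ :=
  open Classical in if m.Coprime N then sg (a (t * m ^ 2)) * sg (a t) else 0

end Pool.Agent.H.MP_656320_nt.LS
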