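import Pool.Agent.H.MP_656320_nt.LS.Df

/-!
# LS/FmA: the functions `f_t`

`exists_G` in Hk: `a (t m²) = G_m(t) a t` and `G_m(t u²) = G_m(t)` for `u` prime to `m`; so
`a (t (b c)²) a t = a (t b²) a (t c²)` for `b`, `c` coprime, and `sign` is multiplicative (`sign_mul`); if `b` or `c` is
not prime to `N` both sides are `0`. For a prime `p` not dividing `N` (relation `h.rel p` at `n = t`, `p²` does not
divide `t`): `a (p² t) = (L p - χ(p) ((-1)^l t / p) p^(l-1)) a t`, and `χ p = ± 1`, the Jacobi symbol is `0, ± 1`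
(`jacobiSym.trichotomy`).
-/

namespace Pool.Agent.H.MP_656320_nt.LS

open Finset Filter Topology Pool.Agent.H.MP_656320_nt

theorem FmA_sg_mul (x y : ℝ) : sg (x * y) = sg x * sg y := by
  simp only [sg, sign_mul]
  push_cast
  rfl

theorem FmA_sg_pos {x : ℝ} (hx : 0 < x) : sg x = 1 := by
  simp [sg, sign_pos hx]

theorem FmA_sg_neg {x : ℝ} (hx : x < 0) : sg x = -1 := by
  simp [sg, sign_neg hx]

theorem FmA_sg_zero : sg 0 = 0 := by
  simp [sg]

theorem FmA_sg_abs (x : ℝ) : |sg x| ≤ 1 := by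
  rcases lt_trichotomy x 0 with h | h | h
  · rw [FmA_sg_neg h]; norm_num
  · rw [h, FmA_sg_zero]; norm_num
  · rw [FmA_sg_pos h]; norm_num

theorem FmA_sg_sq {x : ℝ} (hx : x ≠ 0) : sg x * sg x = 1 := by
  rcases lt_or_gt_of_ne hx with h | h
  · rw [FmA_sg_neg h]; norm_num
  · rw [FmA_sg_pos h]; norm_num

theorem FmA_key {l N : ℕ} {χ lam : ℕ → ℂ} {a : ℕ → ℝ} (h : Hecke l N χ lam a) {t : ℕ}
    (ht : t ∈ Sf N) {b c : ℕ} (hb : 1 ≤ b) (hbN : b.Coprime N) (hc : 1 ≤ c)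
    (hbc : b.Coprime c) : a (t * (b * c) ^ 2) * a t = a (t * b ^ 2) * a (t * c ^ 2) := by
  obtain ⟨G, -, hG2, hG3⟩ := exists_G h hb hbN
  have hpN : ∀ p : ℕ, p.Prime → p ∣ b → ¬ p ∣ N := by
    intro p hp hpb hpN
    exact hp.one_lt.ne' (Nat.eq_one_of_dvd_coprimes hbN hpb hpN)
  have h1 : a (t * b ^ 2) = G t * a t :=
    hG3 t ht.1 (fun p hp hpb => ht.2 p hp (hpN p hp hpb))
  have h2 : a (t * c ^ 2 * b ^ 2) = G (t * c ^ 2) * a (t * c ^ 2) := by
    refine hG3 (t * c ^ 2) (Nat.mul_pos ht.1 (pow_pos (by omega) 2)) ?_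
    intro p hp hpb hd
    have hpc : ¬ p ∣ c := fun h3 => hp.one_lt.ne' (Nat.eq_one_of_dvd_coprimes hbc hpb h3)
    have h4 : (p ^ 2).Coprime (c ^ 2) :=
      Nat.Coprime.pow 2 2 ((Nat.Prime.coprime_iff_not_dvd hp).2 hpc)
    exact ht.2 p hp (hpN p hp hpb) (h4.dvd_of_dvd_mul_right hd)
  have h3 : G (t * c ^ 2) = G t := hG2 t c hbc.symm
  have h4 : t * (b * c) ^ 2 = t * c ^ 2 * b ^ 2 := by ring
  rw [h4, h2, h3, h1]
  ring

theorem ft_mu {l N : ℕ} {χ lam : ℕ → ℂ} {a : ℕ → ℝ} (h : Hecke l N χ lam a) {t : ℕ}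
    (ht : t ∈ Sf N) (hat : a t ≠ 0) : Mu (ft N a t) := by
  have hN1 : N ≠ 1 := by
    rintro rfl
    have := h.four
    omega
  have hpos : ∀ m : ℕ, m.Coprime N → 1 ≤ m := by
    intro m hm
    rcases Nat.eq_zero_or_pos m with h0 | h0
    · rw [h0, Nat.coprime_zero_left] at hm
      exact absurd hm hN1
    · exact h0
  refine ⟨fun m => ?_, fun b c hbc => ?_⟩
  · unfold ft
    split_ifs with hm
    · rw [abs_mul]
      exact mul_le_one₀ (FmA_sg_abs _) (abs_nonneg _) (FmA_sg_abs _)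
    · norm_num
  · by_cases hb : b.Coprime N
    · by_cases hc : c.Coprime N
      · have hbcN : (b * c).Coprime N := Nat.Coprime.mul_left hb hc
        unfold ft
        rw [if_pos hbcN, if_pos hb, if_pos hc]
        have hk := FmA_key h ht (hpos b hb) hb (hpos c hc) hbc
        have h1 := congrArg sg hk
        rw [FmA_sg_mul, FmA_sg_mul] at h1
        rw [h1]
        have h2 := FmA_sg_sq hat
        calc sg (a (t * b ^ 2)) * sg (a (t * c ^ 2))
            = sg (a (t * b ^ 2)) * sg (a (t * c ^ 2)) * 1 := (mul_one _).symm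
          _ = sg (a (t * b ^ 2)) * sg (a (t * c ^ 2)) * (sg (a t) * sg (a t)) := by rw [h2]
          _ = _ := by ring
      · have hbcN : ¬ (b * c).Coprime N := fun h3 =>
          hc (Nat.Coprime.coprime_dvd_left (dvd_mul_left c b) h3)
        unfold ft
        rw [if_neg hbcN, if_neg hc, mul_zero]
    · have hbcN : ¬ (b * c).Coprime N := fun h3 =>
        hb (Nat.Coprime.coprime_dvd_left (dvd_mul_right b c) h3)
      unfold ft
      rw [if_neg hbcN, if_neg hb, zero_mul]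

theorem FmA_unit (x : ℂ) (hx : x ^ 2 = 1) (J : ℤ) (hJ : J = 0 ∨ J = 1 ∨ J = -1) :
    ∃ c : ℝ, |c| ≤ 1 ∧ x * (J : ℂ) = (c : ℂ) := by
  have hx2 : x = 1 ∨ x = -1 := by
    have h0 : (x - 1) * (x + 1) = 0 := by linear_combination hx
    rcases mul_eq_zero.1 h0 with h1 | h1
    · exact Or.inl (sub_eq_zero.1 h1)
    · exact Or.inr (eq_neg_of_add_eq_zero_left h1)
  rcases hx2 with h | h <;> rcases hJ with h' | h' | h'
  all_goals subst h'; rw [h]
  · exact ⟨0, by norm_num, by simp⟩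
  · exact ⟨1, by norm_num, by simp⟩
  · exact ⟨-1, by norm_num, by simp⟩
  · exact ⟨0, by norm_num, by simp⟩
  · exact ⟨-1, by norm_num, by simp⟩
  · exact ⟨1, by norm_num, by simp⟩

theorem ft_prime {l N : ℕ} {χ : ℕ → ℂ} {L : ℕ → ℝ} {a : ℕ → ℝ}
    (h : Hecke l N χ (fun p => (L p : ℂ)) a) (hχ : ∀ p : ℕ, p.Prime → ¬ p ∣ N → χ p ^ 2 = 1) {t : ℕ}
    (ht : t ∈ Sf N) (hat : a t ≠ 0) {p : ℕ} (hp : p.Prime) (hpN : ¬ p ∣ N) :
    ((p : ℝ) ^ ((l : ℤ) - 1) < L p → ft N a t p = 1) ∧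
      (L p < - (p : ℝ) ^ ((l : ℤ) - 1) → ft N a t p = -1) := by
  have hpc : p.Coprime N := (Nat.Prime.coprime_iff_not_dvd hp).2 hpN
  have h1 := h.rel p hp hpN t ht.1
  rw [if_neg (ht.2 p hp hpN), Complex.ofReal_zero, mul_zero, add_zero] at h1
  obtain ⟨c, hc, hcx⟩ := FmA_unit (χ p) (hχ p hp hpN) (jacobiSym ((-1) ^ l * t) p)
    (by
      have := jacobiSym.trichotomy ((-1) ^ l * (t : ℤ)) p
      exact this)
  have hP : (0 : ℝ) < (p : ℝ) ^ ((l : ℤ) - 1) := by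
    have : (0 : ℝ) < p := by exact_mod_cast hp.pos
    positivity
  have h2 : ((a (p ^ 2 * t) : ℝ) : ℂ) = (((L p - c * (p : ℝ) ^ ((l : ℤ) - 1)) * a t : ℝ) : ℂ) := by
    push_cast
    rw [hcx] at h1
    linear_combination h1
  have h3 : a (p ^ 2 * t) = (L p - c * (p : ℝ) ^ ((l : ℤ) - 1)) * a t := by exact_mod_cast h2
  have h4 : t * p ^ 2 = p ^ 2 * t := by ring
  have h5 : ft N a t p = sg (L p - c * (p : ℝ) ^ ((l : ℤ) - 1)) := by
    unfold ft
    rw [if_pos hpc, h4, h3, FmA_sg_mul, mul_assoc, FmA_sg_sq hat, mul_one]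
  have h6 : |c * (p : ℝ) ^ ((l : ℤ) - 1)| ≤ (p : ℝ) ^ ((l : ℤ) - 1) := by
    rw [abs_mul, abs_of_pos hP]
    exact mul_le_of_le_one_left hP.le hc
  have h7 := abs_le.1 h6
  constructor
  · intro h8
    rw [h5]
    exact FmA_sg_pos (by linarith [h7.2])
  · intro h8
    rw [h5]
    exact FmA_sg_neg (by linarith [h7.1])

end Pool.Agent.H.MP_656320_nt.LS
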