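import Pool.Agent.H.MP_656320_nt.LS.Th
import Pool.Agent.H.MP_656320_nt.LS.FmA

/-!
# LS/Fm: the functions `f_t` have small sums over the primes

`ft N a t p = 0` for `p ∣ N`; for the other primes it is `1` for `p ∈ P`, `-1` for `p ∈ M` (`ft_prime`), of absolute value
at most `1` otherwise (`ft_mu`). So `|th (ft N a t) y| ≤ |th (1_P - 1_M) y| + th 1_bad y + ∑_{p ∣ N} log p`, with
`th_diff`, `th_bad` (`P`, `M` disjoint because `p ^ (l - 1) > 0`). If `N = 0` then `ft N a t p = 0` for all primes.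
-/

namespace Pool.Agent.H.MP_656320_nt.LS

open Finset Filter Topology Pool.Agent.H.MP_656320_nt

theorem ft_ThF {l N : ℕ} {χ : ℕ → ℂ} {L : ℕ → ℝ} {a : ℕ → ℝ}
    (h : Hecke l N χ (fun p => (L p : ℂ)) a) (hχ : ∀ p : ℕ, p.Prime → ¬ p ∣ N → χ p ^ 2 = 1)
    (hP : PDens {p | (p : ℝ) ^ ((l : ℤ) - 1) < L p} (1 / 2))
    (hM : PDens {p | L p < - (p : ℝ) ^ ((l : ℤ) - 1)} (1 / 2)) :
    ThF {f | ∃ t ∈ Sf N, a t ≠ 0 ∧ f = ft N a t} := by
  classical
  intro δ hδ
  obtain ⟨P, hPd⟩ : ∃ P : Set ℕ, P = {p : ℕ | (p : ℝ) ^ ((l : ℤ) - 1) < L p} := ⟨_, rfl⟩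
  obtain ⟨M, hMd⟩ : ∃ M : Set ℕ, M = {p : ℕ | L p < - (p : ℝ) ^ ((l : ℤ) - 1)} := ⟨_, rfl⟩
  rw [← hPd] at hP
  rw [← hMd] at hM
  have hP1 : ∀ p, p ∈ P → (p : ℝ) ^ ((l : ℤ) - 1) < L p := by
    intro p hp
    rw [hPd] at hp
    exact hp
  have hM1 : ∀ p, p ∈ M → L p < - (p : ℝ) ^ ((l : ℤ) - 1) := by
    intro p hp
    rw [hMd] at hp
    exact hp
  have hPM : Disjoint P M := by
    rw [Set.disjoint_left]
    intro p h1 h2
    have h1' := hP1 p h1
    have h2' := hM1 p h2
    have h3 : (0 : ℝ) ≤ (p : ℝ) ^ ((l : ℤ) - 1) := zpow_nonneg (Nat.cast_nonneg p) _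
    linarith
  obtain ⟨C₁, hC₁⟩ := th_diff hP hM (δ / 2) (by positivity)
  obtain ⟨C₂, hC₂⟩ := th_bad hP hM hPM (δ / 2) (by positivity)
  refine ⟨|C₁| + |C₂| + ∑ p ∈ N.primeFactors, Real.log p, ?_⟩
  rintro f ⟨t, ht, hat, rfl⟩ y
  have hlog : ∀ p : ℕ, 0 ≤ Real.log p := fun p => Real.log_natCast_nonneg p
  have hK : 0 ≤ ∑ p ∈ N.primeFactors, Real.log p := Finset.sum_nonneg fun p _ => hlog p
  have hmu := ft_mu h ht hat
  have hnc : ∀ p : ℕ, p.Prime → p ∣ N → ft N a t p = 0 := by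
    intro p hp hpN
    unfold ft
    rw [if_neg]
    intro h1
    exact (Nat.Prime.coprime_iff_not_dvd hp).1 h1 hpN
  rcases Nat.eq_zero_or_pos N with hN | hN
  · have h0 : th (ft N a t) y = 0 := by
      unfold th
      refine Finset.sum_eq_zero fun p hp => ?_
      rw [hnc p (Finset.mem_filter.1 hp).2 (hN ▸ dvd_zero p), zero_mul]
    rw [h0, abs_zero]
    have h1 : 0 ≤ δ * (y : ℝ) := by positivity
    have h2 := abs_nonneg C₁
    have h3 := abs_nonneg C₂
    linarith
  · have hpt : ∀ p ∈ (Icc 1 y).filter Nat.Prime, |ft N a t p * Real.log p -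
        ((if p ∈ P then 1 else 0) - (if p ∈ M then 1 else 0)) * Real.log p| ≤
        (if p ∈ P ∨ p ∈ M then 0 else 1) * Real.log p +
          (if p ∣ N then (1 : ℝ) else 0) * Real.log p := by
      intro p hp
      have hpp := (Finset.mem_filter.1 hp).2
      rw [← sub_mul, abs_mul, abs_of_nonneg (hlog p), ← add_mul]
      refine mul_le_mul_of_nonneg_right ?_ (hlog p)
      by_cases hpN : p ∣ N
      · rw [hnc p hpp hpN, if_pos hpN]
        by_cases hpP : p ∈ P
        · have hpM : p ∉ M := Set.disjoint_left.1 hPM hpP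
          simp [hpP, hpM]
        · by_cases hpM : p ∈ M
          · simp [hpP, hpM]
          · simp [hpP, hpM]
      · obtain ⟨h1, h2⟩ := ft_prime h hχ ht hat hpp hpN
        rw [if_neg hpN]
        by_cases hpP : p ∈ P
        · have hpM : p ∉ M := Set.disjoint_left.1 hPM hpP
          rw [h1 (hP1 p hpP)]
          simp [hpP, hpM]
        · by_cases hpM : p ∈ M
          · rw [h2 (hM1 p hpM)]
            simp [hpP, hpM]
          · have h3 := hmu.le p
            simpa [hpP, hpM] using h3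
    have hsum : |th (ft N a t) y - th (fun p => (if p ∈ P then 1 else 0) - (if p ∈ M then 1 else 0)) y| ≤
        th (fun p => if p ∈ P ∨ p ∈ M then 0 else 1) y +
          ∑ p ∈ (Icc 1 y).filter Nat.Prime, (if p ∣ N then (1 : ℝ) else 0) * Real.log p := by
      unfold th
      rw [← Finset.sum_sub_distrib, ← Finset.sum_add_distrib]
      exact (Finset.abs_sum_le_sum_abs _ _).trans (Finset.sum_le_sum hpt)
    have hKs : ∑ p ∈ (Icc 1 y).filter Nat.Prime, (if p ∣ N then (1 : ℝ) else 0) * Real.log p ≤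
        ∑ p ∈ N.primeFactors, Real.log p := by
      have h1 : ∀ p : ℕ, (if p ∣ N then (1 : ℝ) else 0) * Real.log p =
          if p ∣ N then Real.log p else 0 := by
        intro p
        split_ifs <;> simp
      simp only [h1]
      rw [← Finset.sum_filter]
      refine Finset.sum_le_sum_of_subset_of_nonneg ?_ fun p _ _ => hlog p
      intro p hp
      rw [Finset.mem_filter, Finset.mem_filter] at hp
      exact Nat.mem_primeFactors.2 ⟨hp.1.2, hp.2, hN.ne'⟩
    have h1 := hC₁ y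
    have h2 := hC₂ y
    have h3 := le_abs_self C₁
    have h4 := le_abs_self C₂
    have h5 := le_abs_self (th (fun p => if p ∈ P ∨ p ∈ M then 0 else 1) y)
    have h6 := abs_sub_abs_le_abs_sub (th (ft N a t) y)
      (th (fun p => (if p ∈ P then 1 else 0) - (if p ∈ M then 1 else 0)) y)
    linarith

end Pool.Agent.H.MP_656320_nt.LS
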