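import Pool.Agent.H.MP_656320_nt.LS.Df

/-!
# LS/Th: from densities to sums with the weight `log p`

Abel summation: `∑_{n ≤ y} w n log n = W y log y - ∑_{n < y} W n (log (n + 1) - log n)`, `W n = ∑_{m ≤ n} w m`. If
`|W n| ≤ δ π(n) + C` this is at most `2 (δ π(y) + C) log y`, and `π(y) log y ≤ C' y + C''` (Chebyshev,
`Chebyshev.eventually_primeCounting_le` or similar).
-/

namespace Pool.Agent.H.MP_656320_nt.LS

open Finset Filter Topology Pool.Agent.H.MP_656320_nt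

theorem Th_cnt (A : Set ℕ) [DecidablePred (· ∈ A)] (u : ℕ) :
    (cnt A u : ℝ) = ∑ m ∈ Icc 1 u, if m ∈ A then (1 : ℝ) else 0 := by
  have h : {n : ℕ | 1 ≤ n ∧ n ≤ u ∧ n ∈ A} = (((Icc 1 u).filter (· ∈ A) : Finset ℕ) : Set ℕ) := by
    ext n
    rw [Finset.mem_coe, Finset.mem_filter, Finset.mem_Icc]
    exact ⟨fun h => ⟨⟨h.1, h.2.1⟩, h.2.2⟩, fun h => ⟨h.1.1, h.1.2, h.2⟩⟩
  unfold cnt
  rw [h, Set.ncard_coe_finset, Finset.sum_boole]

theorem Th_pi (u : ℕ) : cnt {p | p.Prime} u = Nat.primeCounting u := by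
  have h : {n : ℕ | 1 ≤ n ∧ n ≤ u ∧ n ∈ {p : ℕ | p.Prime}} =
      (((range (u + 1)).filter Nat.Prime : Finset ℕ) : Set ℕ) := by
    ext n
    rw [Finset.mem_coe, Finset.mem_filter, Finset.mem_range]
    exact ⟨fun h => ⟨by have := h.2.1; omega, h.2.2⟩,
      fun h => ⟨h.2.pos, by have := h.1; omega, h.2⟩⟩
  unfold cnt
  rw [h, Set.ncard_coe_finset, Nat.primeCounting, Nat.primeCounting', Nat.count_eq_card_filter_range]

theorem Th_small {S T : ℕ → ℝ} (h : ∀ᶠ u in atTop, |S u| ≤ T u) (hT : ∀ u, 0 ≤ T u) :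
    ∃ C : ℝ, 0 ≤ C ∧ ∀ u, |S u| ≤ T u + C := by
  obtain ⟨U, hU⟩ := Filter.eventually_atTop.1 h
  refine ⟨∑ i ∈ range U, |S i|, Finset.sum_nonneg fun i _ => abs_nonneg _, fun u => ?_⟩
  by_cases hu : U ≤ u
  · have h1 : 0 ≤ ∑ i ∈ range U, |S i| := Finset.sum_nonneg fun i _ => abs_nonneg _
    linarith [hU u hu]
  · have h1 : |S u| ≤ ∑ i ∈ range U, |S i| :=
      Finset.single_le_sum (f := fun i => |S i|) (fun i _ => abs_nonneg _)
        (Finset.mem_range.2 (by omega))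
    linarith [hT u]

theorem Th_abel (w : ℕ → ℝ) (k : ℕ) : ∑ n ∈ Icc 1 (k + 1), w n * Real.log n =
    (∑ m ∈ Icc 1 (k + 1), w m) * Real.log ((k + 1 : ℕ) : ℝ) -
      ∑ n ∈ Icc 1 k, (∑ m ∈ Icc 1 n, w m) * (Real.log ((n + 1 : ℕ) : ℝ) - Real.log n) := by
  induction k with
  | zero => simp
  | succ k ih =>
    have e1 : ∑ n ∈ Icc 1 (k + 1 + 1), w n * Real.log n =
        ∑ n ∈ Icc 1 (k + 1), w n * Real.log n + w (k + 1 + 1) * Real.log ((k + 1 + 1 : ℕ) : ℝ) :=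
      Finset.sum_Icc_succ_top (by omega) _
    have e2 : ∑ n ∈ Icc 1 (k + 1 + 1), w n = ∑ n ∈ Icc 1 (k + 1), w n + w (k + 1 + 1) :=
      Finset.sum_Icc_succ_top (by omega) _
    have e3 : ∑ n ∈ Icc 1 (k + 1),
        (∑ m ∈ Icc 1 n, w m) * (Real.log ((n + 1 : ℕ) : ℝ) - Real.log n) =
        ∑ n ∈ Icc 1 k, (∑ m ∈ Icc 1 n, w m) * (Real.log ((n + 1 : ℕ) : ℝ) - Real.log n) +
          (∑ m ∈ Icc 1 (k + 1), w m) * (Real.log ((k + 1 + 1 : ℕ) : ℝ) - Real.log ((k + 1 : ℕ) : ℝ)) :=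
      Finset.sum_Icc_succ_top (by omega) _
    rw [e1, ih, e2, e3]
    generalize ∑ n ∈ Icc 1 k, (∑ m ∈ Icc 1 n, w m) * (Real.log ((n + 1 : ℕ) : ℝ) - Real.log n) = x1
    generalize ∑ m ∈ Icc 1 (k + 1), w m = x2
    ring

theorem Th_tel (k : ℕ) : ∑ n ∈ Icc 1 k, (Real.log ((n + 1 : ℕ) : ℝ) - Real.log n) =
    Real.log ((k + 1 : ℕ) : ℝ) := by
  induction k with
  | zero => simp
  | succ k ih =>
    rw [Finset.sum_Icc_succ_top (by omega), ih]
    ring

theorem Th_bound {w : ℕ → ℝ} {δ C : ℝ} (hδ : 0 ≤ δ) (hC : 0 ≤ C)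
    (h : ∀ n : ℕ, |∑ m ∈ Icc 1 n, w m| ≤ δ * Nat.primeCounting n + C) (y : ℕ) (hy : 1 ≤ y) :
    |∑ n ∈ Icc 1 y, w n * Real.log n| ≤ 2 * ((δ * Nat.primeCounting y + C) * Real.log y) := by
  obtain ⟨k, rfl⟩ : ∃ k, y = k + 1 := ⟨y - 1, by omega⟩
  have hl : 0 ≤ Real.log ((k + 1 : ℕ) : ℝ) := Real.log_natCast_nonneg _
  rw [Th_abel]
  refine (abs_sub _ _).trans ?_
  have h1 : |(∑ m ∈ Icc 1 (k + 1), w m) * Real.log ((k + 1 : ℕ) : ℝ)| ≤
      (δ * Nat.primeCounting (k + 1) + C) * Real.log ((k + 1 : ℕ) : ℝ) := by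
    rw [abs_mul, abs_of_nonneg hl]
    exact mul_le_mul_of_nonneg_right (h _) hl
  have h2 : |∑ n ∈ Icc 1 k, (∑ m ∈ Icc 1 n, w m) * (Real.log ((n + 1 : ℕ) : ℝ) - Real.log n)| ≤
      (δ * Nat.primeCounting (k + 1) + C) * Real.log ((k + 1 : ℕ) : ℝ) := by
    refine (Finset.abs_sum_le_sum_abs _ _).trans ?_
    rw [← Th_tel k, Finset.mul_sum]
    refine Finset.sum_le_sum fun n hn => ?_
    rw [Finset.mem_Icc] at hn
    have h3 : 0 ≤ Real.log ((n + 1 : ℕ) : ℝ) - Real.log n := by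
      rw [sub_nonneg]
      exact Real.log_le_log (by exact_mod_cast hn.1) (by push_cast; linarith)
    rw [abs_mul, abs_of_nonneg h3]
    refine mul_le_mul_of_nonneg_right ((h n).trans ?_) h3
    have h4 : (Nat.primeCounting n : ℝ) ≤ Nat.primeCounting (k + 1) := by
      exact_mod_cast Nat.monotone_primeCounting (by omega)
    have h5 := mul_le_mul_of_nonneg_left h4 hδ
    linarith
  linarith

theorem Th_core {w : ℕ → ℝ}
    (h : Tendsto (fun u : ℕ => (∑ m ∈ Icc 1 u, w m) / (cnt {p | p.Prime} u : ℕ)) atTop (𝓝 0)) :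
    ∀ δ > 0, ∃ C : ℝ, ∀ y : ℕ, |∑ n ∈ Icc 1 y, w n * Real.log n| ≤ δ * y + C := by
  intro δ hδ
  have hδ8 : 0 < δ / 8 := by positivity
  -- the sums without weight
  have h1 : ∀ᶠ u in atTop, |∑ m ∈ Icc 1 u, w m| ≤ δ / 8 * Nat.primeCounting u := by
    have h2 := (tendsto_zero_iff_abs_tendsto_zero _).1 h
    filter_upwards [h2.eventually (ge_mem_nhds hδ8), eventually_ge_atTop 2] with u hu hu2
    have h3 : 0 < Nat.primeCounting u := by
      rw [Nat.pos_iff_ne_zero]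
      intro h4
      have h5 := (Nat.primeCounting_eq_zero_iff).1 h4
      omega
    have h4 : (0 : ℝ) < Nat.primeCounting u := by exact_mod_cast h3
    have h5 : |(∑ m ∈ Icc 1 u, w m) / (cnt {p | p.Prime} u : ℕ)| ≤ δ / 8 := hu
    rw [Th_pi, abs_div, abs_of_pos h4, div_le_iff₀ h4] at h5
    exact h5
  obtain ⟨C, hC0, hC⟩ := Th_small h1 (fun u => by positivity)
  have h2 : ∀ᶠ y : ℕ in atTop, |∑ n ∈ Icc 1 y, w n * Real.log n| ≤ δ * y := by
    have h3 := (tendsto_natCast_atTop_atTop (R := ℝ)).eventually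
      (Chebyshev.eventually_primeCounting_le (ε := 1) one_pos)
    have h4 : ∀ᶠ y : ℕ in atTop, C * Real.log y ≤ δ / 8 * y := by
      have h5 : (fun y : ℝ => C * Real.log y) =o[atTop] (fun y : ℝ => y) :=
        Real.isLittleO_log_id_atTop.const_mul_left C
      have h6 := (tendsto_natCast_atTop_atTop (R := ℝ)).eventually (h5.bound hδ8)
      filter_upwards [h6] with y hy
      have h7 : ‖(y : ℝ)‖ = y := by rw [Real.norm_eq_abs, abs_of_nonneg (Nat.cast_nonneg y)]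
      rw [h7] at hy
      exact (Real.le_norm_self _).trans hy
    filter_upwards [h3, h4, eventually_ge_atTop 2] with y h5 h6 hy2
    have hl : 0 < Real.log y := Real.log_pos (by exact_mod_cast (by omega : 1 < y))
    have hy0 : (0 : ℝ) < y := by exact_mod_cast (by omega : 0 < y)
    rw [Nat.floor_natCast, le_div_iff₀ hl] at h5
    have h7 : Real.log 4 ≤ 2 := by
      have h8 : Real.log 4 = 2 * Real.log 2 := by
        rw [show (4 : ℝ) = 2 ^ 2 by norm_num, Real.log_pow]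
        norm_num
      have h9 := Real.log_two_lt_d9
      linarith
    have h8 : (Nat.primeCounting y : ℝ) * Real.log y ≤ 3 * y :=
      h5.trans (mul_le_mul_of_nonneg_right (by linarith) hy0.le)
    have h9 := Th_bound hδ8.le hC0 hC y (by omega)
    have h10 : (δ / 8 * Nat.primeCounting y + C) * Real.log y ≤ δ / 8 * (3 * y) + δ / 8 * y := by
      have h11 := mul_le_mul_of_nonneg_left h8 hδ8.le
      have h12 : (δ / 8 * Nat.primeCounting y + C) * Real.log y =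
          δ / 8 * (Nat.primeCounting y * Real.log y) + C * Real.log y := by ring
      rw [h12]
      linarith
    linarith
  obtain ⟨C', -, hC'⟩ := Th_small h2 (fun u => by positivity)
  exact ⟨C', hC'⟩

theorem Th_th (f : ℕ → ℝ) (y : ℕ) :
    th f y = ∑ n ∈ Icc 1 y, (if n.Prime then f n else 0) * Real.log n := by
  unfold th
  rw [Finset.sum_filter]
  refine Finset.sum_congr rfl fun n _ => ?_
  split_ifs
  · rfl
  · rw [zero_mul]

/-- `w` = the indicator function of the primes of `P` minus that of the primes of `M`. -/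
theorem th_diff {P M : Set ℕ} [DecidablePred (· ∈ P)] [DecidablePred (· ∈ M)] (hP : PDens P (1 / 2))
    (hM : PDens M (1 / 2)) : ∀ δ > 0, ∃ C : ℝ, ∀ y : ℕ,
      |th (fun p => (if p ∈ P then 1 else 0) - (if p ∈ M then 1 else 0)) y| ≤ δ * y + C := by
  classical
  intro δ hδ
  have h1 : Tendsto (fun u : ℕ => (∑ m ∈ Icc 1 u, if m.Prime then
      ((if m ∈ P then (1 : ℝ) else 0) - (if m ∈ M then 1 else 0)) else 0) /
        (cnt {p | p.Prime} u : ℕ)) atTop (𝓝 0) := by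
    have h2 := hP.sub hM
    rw [sub_self] at h2
    refine h2.congr fun u => ?_
    rw [← sub_div, Th_cnt, Th_cnt, ← Finset.sum_sub_distrib]
    congr 1
    refine Finset.sum_congr rfl fun m _ => ?_
    simp only [Set.mem_setOf_eq]
    by_cases hm : m.Prime <;> simp [hm]
  obtain ⟨C, hC⟩ := Th_core h1 δ hδ
  refine ⟨C, fun y => ?_⟩
  rw [Th_th]
  exact hC y

/-- the remaining primes -/
theorem th_bad {P M : Set ℕ} [DecidablePred (· ∈ P)] [DecidablePred (· ∈ M)] (hP : PDens P (1 / 2))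
    (hM : PDens M (1 / 2)) (hPM : Disjoint P M) : ∀ δ > 0, ∃ C : ℝ, ∀ y : ℕ,
      |th (fun p => if p ∈ P ∨ p ∈ M then 0 else 1) y| ≤ δ * y + C := by
  classical
  intro δ hδ
  have h1 : Tendsto (fun u : ℕ => (∑ m ∈ Icc 1 u, if m.Prime then
      (if m ∈ P ∨ m ∈ M then (0 : ℝ) else 1) else 0) /
        (cnt {p | p.Prime} u : ℕ)) atTop (𝓝 0) := by
    have h2 := (tendsto_const_nhds (x := (1 : ℝ))).sub (hP.add hM)
    have h3 : (1 : ℝ) - (1 / 2 + 1 / 2) = 0 := by norm_num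
    rw [h3] at h2
    refine h2.congr' ?_
    filter_upwards [eventually_ge_atTop 2] with u hu2
    have h4 : 0 < Nat.primeCounting u := by
      rw [Nat.pos_iff_ne_zero]
      intro h4
      have h5 := (Nat.primeCounting_eq_zero_iff).1 h4
      omega
    have h5 : ((cnt {p | p.Prime} u : ℕ) : ℝ) ≠ 0 := by
      rw [Th_pi]
      exact_mod_cast h4.ne'
    have h6 : ∀ X Y Z : ℝ, Z ≠ 0 → 1 - (X / Z + Y / Z) = (Z - (X + Y)) / Z := by
      intro X Y Z hZ
      rw [sub_div, div_self hZ, add_div]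
    rw [h6 _ _ _ h5]
    congr 1
    rw [Th_cnt, Th_cnt, Th_cnt, ← Finset.sum_add_distrib, ← Finset.sum_sub_distrib]
    refine Finset.sum_congr rfl fun m _ => ?_
    simp only [Set.mem_setOf_eq]
    have hd : m ∈ P → m ∉ M := fun h h' => Set.disjoint_left.1 hPM h h'
    by_cases hm : m.Prime
    · by_cases hmP : m ∈ P
      · have hmM := hd hmP
        simp [hm, hmP, hmM]
      · by_cases hmM : m ∈ M
        · simp [hm, hmP, hmM]
        · simp [hm, hmP, hmM]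
    · simp [hm]
  obtain ⟨C, hC⟩ := Th_core h1 δ hδ
  refine ⟨C, fun y => ?_⟩
  rw [Th_th]
  exact hC y

end Pool.Agent.H.MP_656320_nt.LS
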