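import Pool.Agent.H.MP_656320_nt.LS.SmA
import Pool.Agent.H.MP_656320_nt.LS.Th

/-!
# LS/Lb: the number of the integers with a large square divisor

At least half of the integers up to `y` are in `Sf N` (`4 ∣ N`; `∑_{k ≥ 3} 1 / k ^ 2 ≤ 1 / 2`), the interval
`(z, 3 z]` contains at least `z / N` (rounded down) integers prime to `N`, and `sum_Dz` with `g = 1`.
-/

namespace Pool.Agent.H.MP_656320_nt.LS

open Finset Filter Topology Pool.Agent.H.MP_656320_nt

theorem Lb_tel (y : ℕ) : ∑ k ∈ Icc 3 y, 1 / ((k : ℝ)) ^ 2 ≤ 1 / 2 := by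
  have h : ∀ j : ℕ, ∑ k ∈ Icc 3 (j + 2), 1 / ((k : ℝ)) ^ 2 ≤ 1 / 2 - 1 / ((j : ℝ) + 2) := by
    intro j
    induction j with
    | zero => simp
    | succ j ih =>
      rw [show j + 1 + 2 = (j + 2) + 1 by ring, Finset.sum_Icc_succ_top (by omega)]
      have h1 : 1 / (((j + 2 + 1 : ℕ) : ℝ)) ^ 2 ≤ 1 / ((j : ℝ) + 2) - 1 / ((j : ℝ) + 1 + 2) := by
        push_cast
        have hj : (0 : ℝ) ≤ j := Nat.cast_nonneg j
        rw [div_sub_div _ _ (by positivity) (by positivity), div_le_div_iff₀ (by positivity)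
          (by positivity)]
        nlinarith
      push_cast at h1 ih ⊢
      linarith
  rcases le_or_gt 2 y with hy | hy
  · obtain ⟨j, rfl⟩ : ∃ j, y = j + 2 := ⟨y - 2, by omega⟩
    have h1 := h j
    have h2 : (0 : ℝ) ≤ 1 / ((j : ℝ) + 2) := by positivity
    linarith
  · rw [Finset.Icc_eq_empty (by omega), Finset.sum_empty]
    norm_num

theorem Lb_sf {N : ℕ} (h4 : 4 ∣ N) (y : ℕ) : (y : ℝ) / 2 ≤ cnt (Sf N) y := by
  classical
  have h1 : ∀ n ∈ Icc 1 y, (1 : ℝ) - ∑ k ∈ Icc 3 y, (if k ^ 2 ∣ n then 1 else 0) ≤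
      if n ∈ Sf N then 1 else 0 := by
    intro n hn
    rw [Finset.mem_Icc] at hn
    have h0 : (0 : ℝ) ≤ ∑ k ∈ Icc 3 y, (if k ^ 2 ∣ n then 1 else 0) :=
      Finset.sum_nonneg fun k _ => by split_ifs <;> norm_num
    by_cases hs : n ∈ Sf N
    · rw [if_pos hs]
      linarith
    · rw [if_neg hs]
      have h2 : ∃ p : ℕ, p.Prime ∧ ¬ p ∣ N ∧ p ^ 2 ∣ n := by
        by_contra hc
        push Not at hc
        exact hs ⟨hn.1, fun p hp hpN hd => hc p hp hpN hd⟩
      obtain ⟨p, hp, hpN, hd⟩ := h2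
      have hp3 : 3 ≤ p := by
        have h3 := hp.two_le
        have h5 : p ≠ 2 := by
          rintro rfl
          exact hpN ((by norm_num : 2 ∣ 4).trans h4)
        omega
      have hpy : p ≤ y := by
        have h3 := Nat.le_of_dvd hn.1 hd
        have h5 : p ≤ p ^ 2 := Nat.le_self_pow (by norm_num) p
        omega
      have h3 : (1 : ℝ) ≤ ∑ k ∈ Icc 3 y, (if k ^ 2 ∣ n then 1 else 0) := by
        have h5 := Finset.single_le_sum (f := fun k : ℕ => if k ^ 2 ∣ n then (1 : ℝ) else 0)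
          (fun k _ => by split_ifs <;> norm_num) (Finset.mem_Icc.2 ⟨hp3, hpy⟩)
        rw [if_pos hd] at h5
        exact h5
      linarith
  have h2 : ∑ n ∈ Icc 1 y, ((1 : ℝ) - ∑ k ∈ Icc 3 y, (if k ^ 2 ∣ n then 1 else 0)) ≤
      cnt (Sf N) y := by
    rw [Th_cnt]
    exact Finset.sum_le_sum h1
  refine le_trans ?_ h2
  rw [Finset.sum_sub_distrib, Finset.sum_const, Nat.card_Icc, Nat.add_sub_cancel, nsmul_eq_mul,
    mul_one, Finset.sum_comm]
  have h3 : ∑ k ∈ Icc 3 y, ∑ n ∈ Icc 1 y, (if k ^ 2 ∣ n then (1 : ℝ) else 0) ≤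
      ∑ k ∈ Icc 3 y, (y : ℝ) * (1 / ((k : ℝ)) ^ 2) := by
    refine Finset.sum_le_sum fun k _ => ?_
    rw [Finset.sum_boole]
    have h5 : (Icc 1 y).filter (fun n => k ^ 2 ∣ n) = (Ioc 0 y).filter (fun n => k ^ 2 ∣ n) := rfl
    rw [h5, Nat.Ioc_filter_dvd_card_eq_div]
    refine (Nat.cast_div_le).trans (le_of_eq ?_)
    push_cast
    ring
  rw [← Finset.mul_sum] at h3
  have h5 := mul_le_mul_of_nonneg_left (Lb_tel y) (Nat.cast_nonneg (α := ℝ) y)
  linarith

theorem Lb_m {N z : ℕ} (hN : 1 ≤ N) :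
    z / N ≤ ((Ioc z (3 * z)).filter (fun m => m.Coprime N)).card := by
  have h1 : ((Ioc (z / N) (2 * (z / N))).image (fun j => N * j + 1)) ⊆
      (Ioc z (3 * z)).filter (fun m => m.Coprime N) := by
    intro m hm
    rw [Finset.mem_image] at hm
    obtain ⟨j, hj, rfl⟩ := hm
    rw [Finset.mem_Ioc] at hj
    rw [Finset.mem_filter, Finset.mem_Ioc]
    have h2 : z < N * (z / N + 1) := by
      have := Nat.lt_mul_div_succ z (show 0 < N by omega)
      exact this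
    have h3 : N * (z / N + 1) ≤ N * j := Nat.mul_le_mul_left N (by omega)
    have h4 : N * (z / N) ≤ z := Nat.mul_div_le z N
    have h5 : N * j ≤ N * (2 * (z / N)) := Nat.mul_le_mul_left N hj.2
    have h6 : N * (2 * (z / N)) = 2 * (N * (z / N)) := by ring
    have h7 : 1 ≤ z := by
      by_contra hc
      have hz : z = 0 := by omega
      rw [hz] at hj
      simp at hj
      omega
    refine ⟨⟨by omega, by omega⟩, ?_⟩
    rw [Nat.coprime_comm]
    simp
  have h2 := Finset.card_le_card h1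
  rw [Finset.card_image_of_injective _ (fun a b hab => ?_), Nat.card_Ioc] at h2
  · omega
  · have h3 : N * a + 1 = N * b + 1 := hab
    exact Nat.eq_of_mul_eq_mul_left (show 0 < N by omega) (by omega)

theorem Dz_ge {N : ℕ} (hN : 1 ≤ N) (h4 : 4 ∣ N) {z x : ℕ} (hz : N ≤ z) (hx : 9 * z ^ 2 ≤ x) :
    (x : ℝ) / (72 * N * z) ≤ cnt (Dz N z) x := by
  classical
  have hz1 : 1 ≤ z := hN.trans hz
  have hz0 : (0 : ℝ) < z := by exact_mod_cast hz1
  have hN0 : (0 : ℝ) < N := by exact_mod_cast hN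
  have h1 : (cnt (Dz N z) x : ℝ) = ∑ n ∈ (Icc 1 x).filter (· ∈ Dz N z), (1 : ℝ) := by
    rw [Th_cnt, Finset.sum_filter]
  rw [h1, sum_Dz N z (fun _ => (1 : ℝ)) x]
  have h2 : ∑ t ∈ (Icc 1 (x / (9 * z ^ 2))).filter (· ∈ Sf N), ((z / N : ℕ) : ℝ) ≤
      ∑ t ∈ (Icc 1 x).filter (· ∈ Sf N),
        ∑ m ∈ (Ioc z (Nat.sqrt (x / t))).filter (fun m => m.Coprime N), (1 : ℝ) := by
    refine le_trans (Finset.sum_le_sum fun t ht => ?_)
      (Finset.sum_le_sum_of_subset_of_nonneg (s := (Icc 1 (x / (9 * z ^ 2))).filter (· ∈ Sf N)) ?_ ?_)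
    · rw [Finset.mem_filter, Finset.mem_Icc] at ht
      have h3 : 3 * z ≤ Nat.sqrt (x / t) := by
        rw [Nat.le_sqrt', Nat.le_div_iff_mul_le (by omega)]
        have h5 := (Nat.le_div_iff_mul_le (by positivity)).1 ht.1.2
        calc (3 * z) ^ 2 * t = t * (9 * z ^ 2) := by ring
          _ ≤ x := h5
      rw [Finset.sum_const, nsmul_eq_mul, mul_one]
      have h5 : (Ioc z (3 * z)).filter (fun m => m.Coprime N) ⊆
          (Ioc z (Nat.sqrt (x / t))).filter (fun m => m.Coprime N) :=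
        Finset.filter_subset_filter _ (Finset.Ioc_subset_Ioc_right h3)
      exact_mod_cast (Lb_m hN).trans (Finset.card_le_card h5)
    · exact Finset.filter_subset_filter _ (Finset.Icc_subset_Icc_right (Nat.div_le_self _ _))
    · intro t _ _
      exact Finset.sum_nonneg fun _ _ => zero_le_one
  refine le_trans ?_ h2
  rw [Finset.sum_const, nsmul_eq_mul]
  have h3 : (((Icc 1 (x / (9 * z ^ 2))).filter (· ∈ Sf N)).card : ℝ) = cnt (Sf N) (x / (9 * z ^ 2)) := by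
    rw [Th_cnt, Finset.sum_boole]
  rw [h3]
  have h5 := Lb_sf h4 (x / (9 * z ^ 2))
  have h6 : (x : ℝ) / (18 * z ^ 2) ≤ ((x / (9 * z ^ 2) : ℕ) : ℝ) := by
    have h7 : x < 9 * z ^ 2 * (x / (9 * z ^ 2) + 1) := Nat.lt_mul_div_succ x (by positivity)
    have h8 : 1 ≤ x / (9 * z ^ 2) := (Nat.one_le_div_iff (by positivity)).2 hx
    have h9 : x ≤ 9 * z ^ 2 * (2 * (x / (9 * z ^ 2))) := by
      refine h7.le.trans (Nat.mul_le_mul_left _ (by omega))
    have h10 : (x : ℝ) ≤ 9 * z ^ 2 * (2 * ((x / (9 * z ^ 2) : ℕ) : ℝ)) := by exact_mod_cast h9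
    rw [div_le_iff₀ (by positivity)]
    linarith
  have h7 : (z : ℝ) / (2 * N) ≤ ((z / N : ℕ) : ℝ) := by
    have h8 : z < N * (z / N + 1) := Nat.lt_mul_div_succ z (by omega)
    have h9 : 1 ≤ z / N := (Nat.one_le_div_iff (by omega)).2 hz
    have h10 : z ≤ N * (2 * (z / N)) := h8.le.trans (Nat.mul_le_mul_left _ (by omega))
    have h11 : (z : ℝ) ≤ N * (2 * ((z / N : ℕ) : ℝ)) := by exact_mod_cast h10
    rw [div_le_iff₀ (by positivity)]
    linarith
  calc (x : ℝ) / (72 * N * z) = (x : ℝ) / (18 * z ^ 2) / 2 * ((z : ℝ) / (2 * N)) := by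
        field_simp
        ring
    _ ≤ (cnt (Sf N) (x / (9 * z ^ 2)) : ℝ) * ((z / N : ℕ) : ℝ) := by
        refine mul_le_mul ?_ h7 (by positivity) (by positivity)
        linarith

end Pool.Agent.H.MP_656320_nt.LS
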