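import Pool.Agent.H.MP_656320_nt.LS.Sm
import Pool.Agent.H.MP_656320_nt.LS.Lb

/-!
# LS/SmT: the same sums, `t` restricted to an arbitrary set

As `sum_Dz` and `sum_small`; the bound holds for the sum over `t` of the absolute values of the inner sums.
-/

namespace Pool.Agent.H.MP_656320_nt.LS

open Finset Filter Topology Pool.Agent.H.MP_656320_nt

/-- The numbers `t m ^ 2` with `t ∈ T`, `t ∈ Sf N` and `m > z` prime to `N`. -/
def DT (N z : ℕ) (T : Set ℕ) : Set ℕ :=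
  {n | ∃ t m, t ∈ T ∧ t ∈ Sf N ∧ z < m ∧ m.Coprime N ∧ n = t * m ^ 2}

theorem SmT_univ (N z x : ℕ) : cnt (DT N z Set.univ) x = cnt (Dz N z) x := by
  unfold cnt
  congr 1
  ext n
  constructor
  · rintro ⟨h1, h2, t, m, -, -, h3, h4, rfl⟩
    exact ⟨h1, h2, m, h3, h4, Dvd.intro_left _ rfl⟩
  · rintro ⟨h1, h2, k, h3, h4, h5⟩
    obtain ⟨t, m, htS, hm1, hmN, rfl⟩ := exists_sq N h1
    have hkm : k ∣ m := dvd_of_sq htS h4 (by omega) hm1 h5
    have hkm' : k ≤ m := Nat.le_of_dvd (by omega) hkm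
    exact ⟨h1, h2, t, m, trivial, htS, by omega, hmN, rfl⟩

theorem sum_DT (N z : ℕ) (T : Set ℕ) [DecidablePred (· ∈ DT N z T)] [DecidablePred (· ∈ Sf N ∩ T)]
    (g : ℕ → ℝ) (x : ℕ) :
    ∑ n ∈ (Icc 1 x).filter (· ∈ DT N z T), g n =
      ∑ t ∈ (Icc 1 x).filter (· ∈ Sf N ∩ T), ∑ m ∈ (Ioc z (Nat.sqrt (x / t))).filter (fun m => m.Coprime N),
        g (t * m ^ 2) := by
  classical
  rw [Finset.sum_sigma']
  symm
  refine Finset.sum_bij (fun p _ => p.1 * p.2 ^ 2) ?_ ?_ ?_ (fun _ _ => rfl)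
  · rintro ⟨t, m⟩ h
    simp only [Finset.mem_sigma, Finset.mem_filter, Finset.mem_Icc, Finset.mem_Ioc] at h
    obtain ⟨⟨⟨ht1, htx⟩, htS, htT⟩, ⟨hzm, hm⟩, hmN⟩ := h
    rw [Finset.mem_filter, Finset.mem_Icc]
    have hm1 : 1 ≤ m := by omega
    have hle : t * m ^ 2 ≤ x := by
      rw [Nat.le_sqrt'] at hm
      have h1 := (Nat.le_div_iff_mul_le (by omega : 0 < t)).1 hm
      rw [Nat.mul_comm]
      exact h1
    refine ⟨⟨?_, hle⟩, t, m, htT, htS, hzm, hmN, rfl⟩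
    exact Nat.succ_le_of_lt (Nat.mul_pos ht1 (pow_pos hm1 2))
  · rintro ⟨t, m⟩ h ⟨t', m'⟩ h' heq
    simp only [Finset.mem_sigma, Finset.mem_filter, Finset.mem_Icc, Finset.mem_Ioc] at h h'
    obtain ⟨⟨⟨ht1, htx⟩, htS, -⟩, ⟨hzm, hm⟩, hmN⟩ := h
    obtain ⟨⟨⟨ht1', htx'⟩, htS', -⟩, ⟨hzm', hm'⟩, hmN'⟩ := h'
    simp only at heq
    have hm1 : 1 ≤ m := by omega
    have hm1' : 1 ≤ m' := by omega
    have e1 : t * m ^ 2 / m ^ 2 = t := Nat.mul_div_cancel _ (by positivity)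
    have e2 : t * m ^ 2 / m' ^ 2 = t' := by
      rw [heq]
      exact Nat.mul_div_cancel _ (by positivity)
    have hmm : m = m' := sq_unique (n := t * m ^ 2) hmN hmN' hm1 hm1' (Dvd.intro_left _ rfl)
      (by rw [heq]; exact Dvd.intro_left _ rfl) (by rw [e1]; exact htS) (by rw [e2]; exact htS')
    subst hmm
    have htt : t = t' := by
      rw [← e1, ← e2]
    subst htt
    rfl
  · intro n hn
    rw [Finset.mem_filter, Finset.mem_Icc] at hn
    obtain ⟨⟨hn1, hnx⟩, t, m, htT, htS, hzm, hmN, rfl⟩ := hn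
    have ht1 : 1 ≤ t := htS.1
    have hm1 : 1 ≤ m := by omega
    refine ⟨⟨t, m⟩, ?_, rfl⟩
    simp only [Finset.mem_sigma, Finset.mem_filter, Finset.mem_Icc, Finset.mem_Ioc]
    refine ⟨⟨⟨ht1, ?_⟩, htS, htT⟩, ⟨by omega, ?_⟩, hmN⟩
    · exact (Nat.le_mul_of_pos_right t (by positivity)).trans hnx
    · rw [Nat.le_sqrt']
      refine (Nat.le_div_iff_mul_le (by omega : 0 < t)).2 ?_
      rw [Nat.mul_comm]
      exact hnx

theorem sum_smallT {N : ℕ} {a : ℕ → ℝ}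
    (h : ∀ δ > 0, ∃ C : ℝ, ∀ t ∈ Sf N, a t ≠ 0 → ∀ u : ℕ, |∑ m ∈ Icc 1 u, ft N a t m| ≤ δ * u + C)
    (h0 : ∀ t ∈ Sf N, a t = 0 → ∀ m : ℕ, 1 ≤ m → m.Coprime N → a (t * m ^ 2) = 0) :
    ∀ ε > 0, ∃ z0 : ℕ, ∀ z x : ℕ, z0 ≤ z → ∀ T : Set ℕ,
      |(cnt {n | 0 < a n ∧ n ∈ DT N z T} x : ℝ) - cnt {n | a n < 0 ∧ n ∈ DT N z T} x| ≤
        ε * x / z := by
  classical
  intro ε hε
  obtain ⟨C, hC⟩ := h (ε / 6) (by positivity)
  obtain ⟨z0, hz0⟩ := exists_nat_ge (2 * C / (ε / 6))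
  refine ⟨z0 + 1, fun z x hz T => ?_⟩
  have hz1 : 1 ≤ z := by omega
  have hzr : (0 : ℝ) < z := by exact_mod_cast hz1
  have hCz : 2 * C ≤ ε / 6 * z := by
    have h1 : 2 * C ≤ z0 * (ε / 6) := (div_le_iff₀ (by positivity)).1 hz0
    have h2 : (z0 : ℝ) ≤ z := by exact_mod_cast (by omega : z0 ≤ z)
    have h3 := mul_le_mul_of_nonneg_right h2 (by positivity : 0 ≤ ε / 6)
    linarith
  rw [cnt_sg a (DT N z T) x, sum_DT N z T (fun n => sg (a n)) x]
  have hI : ∀ t ∈ (Icc 1 x).filter (· ∈ Sf N ∩ T),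
      |∑ m ∈ (Ioc z (Nat.sqrt (x / t))).filter (fun m => m.Coprime N), sg (a (t * m ^ 2))| ≤
        if t ∈ Icc 1 (x / z ^ 2) then ε / 2 * Real.sqrt x * (1 / Real.sqrt t) else 0 := by
    intro t ht
    rw [mem_filter, mem_Icc] at ht
    obtain ⟨⟨ht1, htx⟩, htS, htT⟩ := ht
    have ht0 : (0 : ℝ) < t := by exact_mod_cast ht1
    have hpos : 0 ≤ (if t ∈ Icc 1 (x / z ^ 2) then
        ε / 2 * Real.sqrt x * (1 / Real.sqrt t) else 0) := by
      split_ifs
      · positivity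
      · exact le_refl _
    by_cases hat : a t = 0
    · rw [sum_eq_zero, abs_zero]
      · exact hpos
      · intro m hm
        rw [mem_filter, mem_Ioc] at hm
        rw [h0 t htS hat m (by omega) hm.2]
        unfold sg
        simp
    · obtain ⟨v, hv⟩ : ∃ v, v = Nat.sqrt (x / t) := ⟨_, rfl⟩
      rw [← hv]
      rcases le_or_gt v z with hvz | hvz
      · rw [Ioc_eq_empty (by omega), filter_empty, sum_empty, abs_zero]
        exact hpos
      · have h1 : v ^ 2 ≤ x / t := by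
          rw [hv]
          exact Nat.sqrt_le' _
        have h2 : v ^ 2 * t ≤ x := (Nat.le_div_iff_mul_le (by omega)).1 h1
        have h3 : z ^ 2 * t ≤ x := le_trans (Nat.mul_le_mul_right t (Nat.pow_le_pow_left hvz.le 2)) h2
        have h4 : t ∈ Icc 1 (x / z ^ 2) := by
          rw [mem_Icc]
          refine ⟨ht1, (Nat.le_div_iff_mul_le (by positivity)).2 ?_⟩
          rw [mul_comm]
          exact h3
        rw [if_pos h4, Sm_inner hat, abs_mul]
        have h5 := Sm_bd (by positivity : 0 ≤ ε / 6) (hC t htS hat) hvz.le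
        have h6 : |sg (a t)| * |∑ m ∈ Ioc z v, ft N a t m| ≤
            1 * |∑ m ∈ Ioc z v, ft N a t m| :=
          mul_le_mul_of_nonneg_right (Sm_sg_abs _) (abs_nonneg _)
        have h7 : (z : ℝ) ≤ v := by exact_mod_cast hvz.le
        have h8 := mul_le_mul_of_nonneg_left h7 (by positivity : 0 ≤ ε / 6)
        have h9 : (v : ℝ) ≤ Real.sqrt x * (1 / Real.sqrt t) := by
          rw [mul_one_div, ← Real.sqrt_div (Nat.cast_nonneg x)]
          refine Real.le_sqrt_of_sq_le ?_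
          rw [le_div_iff₀ ht0]
          exact_mod_cast h2
        have h10 := mul_le_mul_of_nonneg_left h9 (by positivity : 0 ≤ ε / 2)
        rw [one_mul] at h6
        calc |sg (a t)| * |∑ m ∈ Ioc z v, ft N a t m| ≤ 2 * (ε / 6 * v) + 2 * C := h6.trans h5
          _ ≤ ε / 2 * v := by linarith
          _ ≤ ε / 2 * (Real.sqrt x * (1 / Real.sqrt t)) := h10
          _ = ε / 2 * Real.sqrt x * (1 / Real.sqrt t) := by ring
  calc |∑ t ∈ (Icc 1 x).filter (· ∈ Sf N ∩ T),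
        ∑ m ∈ (Ioc z (Nat.sqrt (x / t))).filter (fun m => m.Coprime N), sg (a (t * m ^ 2))|
      ≤ ∑ t ∈ (Icc 1 x).filter (· ∈ Sf N ∩ T),
        |∑ m ∈ (Ioc z (Nat.sqrt (x / t))).filter (fun m => m.Coprime N), sg (a (t * m ^ 2))| :=
        abs_sum_le_sum_abs _ _
    _ ≤ ∑ t ∈ (Icc 1 x).filter (· ∈ Sf N ∩ T),
        (if t ∈ Icc 1 (x / z ^ 2) then ε / 2 * Real.sqrt x * (1 / Real.sqrt t) else 0) :=
        sum_le_sum hI
    _ ≤ ∑ t ∈ Icc 1 (x / z ^ 2), ε / 2 * Real.sqrt x * (1 / Real.sqrt t) := by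
        rw [← sum_filter]
        refine sum_le_sum_of_subset_of_nonneg (fun t ht => (mem_filter.1 ht).2) fun t _ _ => ?_
        positivity
    _ = ε / 2 * Real.sqrt x * ∑ t ∈ Icc 1 (x / z ^ 2), 1 / Real.sqrt t := by rw [mul_sum]
    _ ≤ ε / 2 * Real.sqrt x * (2 * Real.sqrt ((x / z ^ 2 : ℕ) : ℝ)) :=
        mul_le_mul_of_nonneg_left (sqsum _) (by positivity)
    _ ≤ ε / 2 * Real.sqrt x * (2 * (Real.sqrt x / z)) := by
        refine mul_le_mul_of_nonneg_left (mul_le_mul_of_nonneg_left ?_ (by norm_num)) (by positivity)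
        have h1 : ((x / z ^ 2 : ℕ) : ℝ) ≤ (x : ℝ) / z ^ 2 := by
          refine Nat.cast_div_le.trans ?_
          push_cast
          exact le_refl _
        refine (Real.sqrt_le_sqrt h1).trans ?_
        rw [Real.sqrt_div (Nat.cast_nonneg x), Real.sqrt_sq hzr.le]
    _ = ε * x / z := by
        have h5 : Real.sqrt (x : ℝ) * Real.sqrt x = x := Real.mul_self_sqrt (Nat.cast_nonneg x)
        field_simp
        linear_combination h5


end Pool.Agent.H.MP_656320_nt.LS
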