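import Pool.Agent.H.MP_656320_nt.LS.Av
import Pool.Agent.H.MP_656320_nt.LS.Fm
import Pool.Agent.H.MP_656320_nt.LS.SmT

/-!
# LS/Main
-/

namespace Pool.Agent.H.MP_656320_nt.LS

open Finset Filter Topology Pool.Agent.H.MP_656320_nt

theorem main {l N : ℕ} (hN : 1 ≤ N) {χ : ℕ → ℂ} {L : ℕ → ℝ} {a : ℕ → ℝ}
    (h : Hecke l N χ (fun p => (L p : ℂ)) a) (hχ : ∀ p : ℕ, p.Prime → ¬ p ∣ N → χ p ^ 2 = 1)
    (hP : PDens {p | (p : ℝ) ^ ((l : ℤ) - 1) < L p} (1 / 2))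
    (hM : PDens {p | L p < - (p : ℝ) ^ ((l : ℤ) - 1)} (1 / 2)) :
    (∀ ε > 0, ∃ z0 : ℕ, ∀ z x : ℕ, z0 ≤ z → ∀ T : Set ℕ,
      |(cnt {n | 0 < a n ∧ n ∈ DT N z T} x : ℝ) - cnt {n | a n < 0 ∧ n ∈ DT N z T} x| ≤
        ε * x / z) ∧
    ∀ z x : ℕ, N ≤ z → 9 * z ^ 2 ≤ x → (x : ℝ) / (72 * N * z) ≤ cnt (DT N z Set.univ) x := by
  have h1 := mean_small (F := {f | ∃ t ∈ Sf N, a t ≠ 0 ∧ f = ft N a t})
    (by rintro f ⟨t, ht, hat, rfl⟩; exact ft_mu h ht hat) (ft_ThF h hχ hP hM)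
  refine ⟨sum_smallT (fun δ hδ => ?_) (fun t ht hat m hm hmN => ?_), fun z x hz hx => ?_⟩
  · obtain ⟨C, hC⟩ := h1 δ hδ
    exact ⟨C, fun t ht hat u => hC _ ⟨t, ht, hat, rfl⟩ u⟩
  · obtain ⟨G, -, -, hG⟩ := exists_G h hm hmN
    rw [hG t ht.1 (fun p hp hpm => ht.2 p hp (fun hpN => hp.one_lt.ne'
      (Nat.eq_one_of_dvd_coprimes hmN hpm hpN))), hat, mul_zero]
  · rw [SmT_univ]
    exact Dz_ge hN h.four hz hx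

end Pool.Agent.H.MP_656320_nt.LS
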