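import Pool.Agent.H.MP_656320_nt.LS.Df

/-!
# LS/SmA: sums over the integers with a large square divisor

`cnt_sg`: count the two sets (`cnt` in Cmp, `Set.ncard_eq_toFinset_card'`), `sg = 1, -1, 0`. `sum_Dz`: `n = t m²` with
`t ∈ Sf N`, `m` prime to `N` (`exists_sq`, `sq_unique` in Hk), `n ∈ Dz N z` iff `z < m` (`dvd_of_sq`): use
`Finset.sum_sigma'` and `Finset.sum_bij'` or `Finset.sum_nbij`; `m ≤ √(x / t)` iff `m ^ 2 ≤ x / t` iff `t m² ≤ x`
(`Nat.le_sqrt'`, `Nat.le_div_iff_mul_le`).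
-/

namespace Pool.Agent.H.MP_656320_nt.LS

open Finset Filter Topology Pool.Agent.H.MP_656320_nt

theorem SmA_cnt (P : ℕ → Prop) [DecidablePred P] (x : ℕ) :
    (cnt {n | P n} x : ℝ) = ∑ n ∈ Icc 1 x, if P n then (1 : ℝ) else 0 := by
  have h1 : {n : ℕ | 1 ≤ n ∧ n ≤ x ∧ n ∈ {n | P n}} = ((Icc 1 x).filter P : Finset ℕ) := by
    ext n
    simp only [Set.mem_ofPred_eq, Finset.coe_filter, Finset.mem_Icc]
    tauto
  unfold cnt
  rw [h1, Set.ncard_coe_finset, Finset.card_filter]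
  push_cast
  rfl

theorem cnt_sg (a : ℕ → ℝ) (A : Set ℕ) [DecidablePred (· ∈ A)] (x : ℕ) :
    (cnt {n | 0 < a n ∧ n ∈ A} x : ℝ) - cnt {n | a n < 0 ∧ n ∈ A} x =
      ∑ n ∈ (Icc 1 x).filter (· ∈ A), sg (a n) := by
  classical
  rw [SmA_cnt (fun n => 0 < a n ∧ n ∈ A) x, SmA_cnt (fun n => a n < 0 ∧ n ∈ A) x,
    ← Finset.sum_sub_distrib, Finset.sum_filter]
  refine Finset.sum_congr rfl fun n _ => ?_
  unfold sg
  by_cases hA : n ∈ A
  · simp only [hA, and_true, if_true]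
    rcases lt_trichotomy (a n) 0 with h | h | h
    · rw [if_neg (by linarith), if_pos h, sign_neg h]
      simp
    · rw [if_neg (by linarith), if_neg (by linarith), h, sign_zero]
      simp
    · rw [if_pos h, if_neg (by linarith), sign_pos h]
      simp
  · simp [hA]

theorem sum_Dz (N z : ℕ) [DecidablePred (· ∈ Dz N z)] [DecidablePred (· ∈ Sf N)] (g : ℕ → ℝ)
    (x : ℕ) :
    ∑ n ∈ (Icc 1 x).filter (· ∈ Dz N z), g n =
      ∑ t ∈ (Icc 1 x).filter (· ∈ Sf N), ∑ m ∈ (Ioc z (Nat.sqrt (x / t))).filter (fun m => m.Coprime N),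
        g (t * m ^ 2) := by
  classical
  rw [Finset.sum_sigma']
  symm
  refine Finset.sum_bij (fun p _ => p.1 * p.2 ^ 2) ?_ ?_ ?_ (fun _ _ => rfl)
  · rintro ⟨t, m⟩ h
    simp only [Finset.mem_sigma, Finset.mem_filter, Finset.mem_Icc, Finset.mem_Ioc] at h
    obtain ⟨⟨⟨ht1, htx⟩, htS⟩, ⟨hzm, hm⟩, hmN⟩ := h
    rw [Finset.mem_filter, Finset.mem_Icc]
    have hm1 : 1 ≤ m := by omega
    have hle : t * m ^ 2 ≤ x := by
      rw [Nat.le_sqrt'] at hm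
      have h1 := (Nat.le_div_iff_mul_le (by omega : 0 < t)).1 hm
      rw [Nat.mul_comm]
      exact h1
    refine ⟨⟨?_, hle⟩, m, hzm, hmN, Dvd.intro_left _ rfl⟩
    exact Nat.succ_le_of_lt (Nat.mul_pos ht1 (pow_pos hm1 2))
  · rintro ⟨t, m⟩ h ⟨t', m'⟩ h' heq
    simp only [Finset.mem_sigma, Finset.mem_filter, Finset.mem_Icc, Finset.mem_Ioc] at h h'
    obtain ⟨⟨⟨ht1, htx⟩, htS⟩, ⟨hzm, hm⟩, hmN⟩ := h
    obtain ⟨⟨⟨ht1', htx'⟩, htS'⟩, ⟨hzm', hm'⟩, hmN'⟩ := h'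
    simp only at heq
    have hm1 : 1 ≤ m := by omega
    have hm1' : 1 ≤ m' := by omega
    have e1 : t * m ^ 2 / m ^ 2 = t := Nat.mul_div_cancel _ (by positivity)
    have e2 : t * m ^ 2 / m' ^ 2 = t' := by
      rw [heq]
      exact Nat.mul_div_cancel _ (by positivity)
    have hmm : m = m' := sq_unique (n := t * m ^ 2) hmN hmN' hm1 hm1' (Dvd.intro_left _ rfl)
      (by rw [heq]; exact Dvd.intro_left _ rfl) (by rw [e1]; exact htS) (by rw [e2]; exact htS')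
    subst hmm
    have htt : t = t' := by
      rw [← e1, ← e2]
    subst htt
    rfl
  · intro n hn
    rw [Finset.mem_filter, Finset.mem_Icc] at hn
    obtain ⟨⟨hn1, hnx⟩, k, hzk, hkN, hkn⟩ := hn
    obtain ⟨t, m, htS, hm1, hmN, rfl⟩ := exists_sq N hn1
    have hkm : k ∣ m := dvd_of_sq htS hkN (by omega) hm1 hkn
    have hkm' : k ≤ m := Nat.le_of_dvd (by omega) hkm
    have ht1 : 1 ≤ t := htS.1
    refine ⟨⟨t, m⟩, ?_, rfl⟩
    simp only [Finset.mem_sigma, Finset.mem_filter, Finset.mem_Icc, Finset.mem_Ioc]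
    refine ⟨⟨⟨ht1, ?_⟩, htS⟩, ⟨by omega, ?_⟩, hmN⟩
    · exact (Nat.le_mul_of_pos_right t (by positivity)).trans hnx
    · rw [Nat.le_sqrt']
      refine (Nat.le_div_iff_mul_le (by omega : 0 < t)).2 ?_
      rw [Nat.mul_comm]
      exact hnx

end Pool.Agent.H.MP_656320_nt.LS
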