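import Pool.Agent.H.MP_656320_nt.LS.AvC
import Pool.Agent.H.MP_656320_nt.LS.SmA

/-!
# LS/Sm: the sum over the integers with a large square divisor

By `cnt_sg` and `sum_Dz` the difference is the sum over `t ∈ Sf N`, `t ≤ x`, of `sg (a t) ∑_{z < m ≤ v} ft N a t m`,
`v = √(x / t)` (`sg (a (t m²)) = sg (a t) ft N a t m`, as `sg² = 1`; `0` if `a t = 0`). The inner sum is `0` unless
`z < v`, and then at most `δ v + C + δ z + C ≤ 2 δ v + 2 C ≤ 3 δ v` for `z ≥ z0`, `v ≤ √x / √t`, `t ≤ x / z²`;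
`sqsum` at `x / z²`: `6 δ x / z`.
-/

namespace Pool.Agent.H.MP_656320_nt.LS

open Finset Filter Topology Pool.Agent.H.MP_656320_nt

theorem Sm_sg_sq {x : ℝ} (hx : x ≠ 0) : sg x * sg x = 1 := by
  unfold sg
  rcases lt_or_gt_of_ne hx with h | h
  · rw [sign_neg h]
    simp
  · rw [sign_pos h]
    simp

theorem Sm_sg_abs (x : ℝ) : |sg x| ≤ 1 := by
  unfold sg
  rcases lt_trichotomy x 0 with h | h | h
  · rw [sign_neg h]
    simp
  · rw [h, sign_zero]
    simp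
  · rw [sign_pos h]
    simp

theorem Sm_inner {N : ℕ} {a : ℕ → ℝ} {t : ℕ} (ht : a t ≠ 0) (z v : ℕ) :
    ∑ m ∈ (Ioc z v).filter (fun m => m.Coprime N), sg (a (t * m ^ 2)) =
      sg (a t) * ∑ m ∈ Ioc z v, ft N a t m := by
  rw [sum_filter, mul_sum]
  refine sum_congr rfl fun m _ => ?_
  unfold ft
  by_cases hm : m.Coprime N
  · rw [if_pos hm, if_pos hm]
    have h1 := Sm_sg_sq ht
    linear_combination (- sg (a (t * m ^ 2))) * h1
  · rw [if_neg hm, if_neg hm, mul_zero]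

theorem Sm_bd {N : ℕ} {a : ℕ → ℝ} {t : ℕ} {δ C : ℝ} (hδ : 0 ≤ δ)
    (h : ∀ u : ℕ, |∑ m ∈ Icc 1 u, ft N a t m| ≤ δ * u + C) {z v : ℕ} (hzv : z ≤ v) :
    |∑ m ∈ Ioc z v, ft N a t m| ≤ 2 * (δ * v) + 2 * C := by
  have h1 : ∑ m ∈ Ioc z v, ft N a t m =
      ∑ m ∈ Icc 1 v, ft N a t m - ∑ m ∈ Icc 1 z, ft N a t m := by
    have h2 : Icc 1 v = Icc 1 z ∪ Ioc z v := by
      ext m
      simp only [mem_union, mem_Icc, mem_Ioc]
      omega
    rw [h2, sum_union]
    · ring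
    · rw [disjoint_left]
      intro m hm hm'
      rw [mem_Icc] at hm
      rw [mem_Ioc] at hm'
      omega
  have h3 := abs_le.1 (h v)
  have h4 := abs_le.1 (h z)
  have h5 : (z : ℝ) ≤ v := by exact_mod_cast hzv
  have h6 := mul_le_mul_of_nonneg_left h5 hδ
  rw [h1]
  refine abs_le.2 ⟨by linarith [h3.1, h4.2], by linarith [h3.2, h4.1]⟩

theorem sum_small {N : ℕ} {a : ℕ → ℝ}
    (h : ∀ δ > 0, ∃ C : ℝ, ∀ t ∈ Sf N, a t ≠ 0 → ∀ u : ℕ, |∑ m ∈ Icc 1 u, ft N a t m| ≤ δ * u + C)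
    (h0 : ∀ t ∈ Sf N, a t = 0 → ∀ m : ℕ, 1 ≤ m → m.Coprime N → a (t * m ^ 2) = 0) :
    ∀ ε > 0, ∃ z0 : ℕ, ∀ z x : ℕ, z0 ≤ z →
      |(cnt {n | 0 < a n ∧ n ∈ Dz N z} x : ℝ) - cnt {n | a n < 0 ∧ n ∈ Dz N z} x| ≤ ε * x / z := by
  classical
  intro ε hε
  obtain ⟨C, hC⟩ := h (ε / 6) (by positivity)
  obtain ⟨z0, hz0⟩ := exists_nat_ge (2 * C / (ε / 6))
  refine ⟨z0 + 1, fun z x hz => ?_⟩
  have hz1 : 1 ≤ z := by omega
  have hzr : (0 : ℝ) < z := by exact_mod_cast hz1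
  have hCz : 2 * C ≤ ε / 6 * z := by
    have h1 : 2 * C ≤ z0 * (ε / 6) := (div_le_iff₀ (by positivity)).1 hz0
    have h2 : (z0 : ℝ) ≤ z := by exact_mod_cast (by omega : z0 ≤ z)
    have h3 := mul_le_mul_of_nonneg_right h2 (by positivity : 0 ≤ ε / 6)
    linarith
  rw [cnt_sg a (Dz N z) x, sum_Dz N z (fun n => sg (a n)) x]
  have hI : ∀ t ∈ (Icc 1 x).filter (· ∈ Sf N),
      |∑ m ∈ (Ioc z (Nat.sqrt (x / t))).filter (fun m => m.Coprime N), sg (a (t * m ^ 2))| ≤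
        if t ∈ Icc 1 (x / z ^ 2) then ε / 2 * Real.sqrt x * (1 / Real.sqrt t) else 0 := by
    intro t ht
    rw [mem_filter, mem_Icc] at ht
    obtain ⟨⟨ht1, htx⟩, htS⟩ := ht
    have ht0 : (0 : ℝ) < t := by exact_mod_cast ht1
    have hpos : 0 ≤ (if t ∈ Icc 1 (x / z ^ 2) then
        ε / 2 * Real.sqrt x * (1 / Real.sqrt t) else 0) := by
      split_ifs
      · positivity
      · exact le_refl _
    by_cases hat : a t = 0
    · rw [sum_eq_zero, abs_zero]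
      · exact hpos
      · intro m hm
        rw [mem_filter, mem_Ioc] at hm
        rw [h0 t htS hat m (by omega) hm.2]
        unfold sg
        simp
    · obtain ⟨v, hv⟩ : ∃ v, v = Nat.sqrt (x / t) := ⟨_, rfl⟩
      rw [← hv]
      rcases le_or_gt v z with hvz | hvz
      · rw [Ioc_eq_empty (by omega), filter_empty, sum_empty, abs_zero]
        exact hpos
      · have h1 : v ^ 2 ≤ x / t := by
          rw [hv]
          exact Nat.sqrt_le' _
        have h2 : v ^ 2 * t ≤ x := (Nat.le_div_iff_mul_le (by omega)).1 h1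
        have h3 : z ^ 2 * t ≤ x := le_trans (Nat.mul_le_mul_right t (Nat.pow_le_pow_left hvz.le 2)) h2
        have h4 : t ∈ Icc 1 (x / z ^ 2) := by
          rw [mem_Icc]
          refine ⟨ht1, (Nat.le_div_iff_mul_le (by positivity)).2 ?_⟩
          rw [mul_comm]
          exact h3
        rw [if_pos h4, Sm_inner hat, abs_mul]
        have h5 := Sm_bd (by positivity : 0 ≤ ε / 6) (hC t htS hat) hvz.le
        have h6 : |sg (a t)| * |∑ m ∈ Ioc z v, ft N a t m| ≤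
            1 * |∑ m ∈ Ioc z v, ft N a t m| :=
          mul_le_mul_of_nonneg_right (Sm_sg_abs _) (abs_nonneg _)
        have h7 : (z : ℝ) ≤ v := by exact_mod_cast hvz.le
        have h8 := mul_le_mul_of_nonneg_left h7 (by positivity : 0 ≤ ε / 6)
        have h9 : (v : ℝ) ≤ Real.sqrt x * (1 / Real.sqrt t) := by
          rw [mul_one_div, ← Real.sqrt_div (Nat.cast_nonneg x)]
          refine Real.le_sqrt_of_sq_le ?_
          rw [le_div_iff₀ ht0]
          exact_mod_cast h2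
        have h10 := mul_le_mul_of_nonneg_left h9 (by positivity : 0 ≤ ε / 2)
        rw [one_mul] at h6
        calc |sg (a t)| * |∑ m ∈ Ioc z v, ft N a t m| ≤ 2 * (ε / 6 * v) + 2 * C := h6.trans h5
          _ ≤ ε / 2 * v := by linarith
          _ ≤ ε / 2 * (Real.sqrt x * (1 / Real.sqrt t)) := h10
          _ = ε / 2 * Real.sqrt x * (1 / Real.sqrt t) := by ring
  calc |∑ t ∈ (Icc 1 x).filter (· ∈ Sf N),
        ∑ m ∈ (Ioc z (Nat.sqrt (x / t))).filter (fun m => m.Coprime N), sg (a (t * m ^ 2))|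
      ≤ ∑ t ∈ (Icc 1 x).filter (· ∈ Sf N),
        |∑ m ∈ (Ioc z (Nat.sqrt (x / t))).filter (fun m => m.Coprime N), sg (a (t * m ^ 2))| :=
        abs_sum_le_sum_abs _ _
    _ ≤ ∑ t ∈ (Icc 1 x).filter (· ∈ Sf N),
        (if t ∈ Icc 1 (x / z ^ 2) then ε / 2 * Real.sqrt x * (1 / Real.sqrt t) else 0) :=
        sum_le_sum hI
    _ ≤ ∑ t ∈ Icc 1 (x / z ^ 2), ε / 2 * Real.sqrt x * (1 / Real.sqrt t) := by
        rw [← sum_filter]
        refine sum_le_sum_of_subset_of_nonneg (fun t ht => (mem_filter.1 ht).2) fun t _ _ => ?_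
        positivity
    _ = ε / 2 * Real.sqrt x * ∑ t ∈ Icc 1 (x / z ^ 2), 1 / Real.sqrt t := by rw [mul_sum]
    _ ≤ ε / 2 * Real.sqrt x * (2 * Real.sqrt ((x / z ^ 2 : ℕ) : ℝ)) :=
        mul_le_mul_of_nonneg_left (sqsum _) (by positivity)
    _ ≤ ε / 2 * Real.sqrt x * (2 * (Real.sqrt x / z)) := by
        refine mul_le_mul_of_nonneg_left (mul_le_mul_of_nonneg_left ?_ (by norm_num)) (by positivity)
        have h1 : ((x / z ^ 2 : ℕ) : ℝ) ≤ (x : ℝ) / z ^ 2 := by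
          refine Nat.cast_div_le.trans ?_
          push_cast
          exact le_refl _
        refine (Real.sqrt_le_sqrt h1).trans ?_
        rw [Real.sqrt_div (Nat.cast_nonneg x), Real.sqrt_sq hzr.le]
    _ = ε * x / z := by
        have h5 : Real.sqrt (x : ℝ) * Real.sqrt x = x := Real.mul_self_sqrt (Nat.cast_nonneg x)
        field_simp
        linear_combination h5

end Pool.Agent.H.MP_656320_nt.LS
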